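import Mathlib
import Pool.Agent.Lib.MP_caab05_ag.ZE.Defs

/-! The multiplicity estimate in two degrees: definitions. -/

namespace Pool.Agent.Lib.MP_caab05_ag.ZF

open Complex Module
open Pool.Agent.Lib.MP_caab05_ag.LT (E)
open ZE

variable {d M e d' M' : ℕ}

/-- the complex span of the lifted periods of `U` -/
noncomputable def SU (A : VX d M) (σ : Fin e → E d) (U : Submodule ℂ (E d)) :
    Submodule ℂ (Sp d e) :=
  Submodule.span ℂ (lift A σ '' (U : Set (E d)))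

/-- the slope condition with slope `a / b` -/
structure Adm2 (A : VX d M) (σ : Fin e → E d) (a b : ℕ) (W : Submodule ℂ (Sp d e)) : Prop where
  dim : ∀ U, ZE.Rat A U → b * e + a * d + b * finrank ℂ U ≤
    b * finrank ℂ ↥(W ⊔ SU A σ U) + a * finrank ℂ U
  hor : ∀ U, ZE.Rat A U → U ≠ ⊤ → ∃ w ∈ W, w.1 ∉ U

/-- the multiplicity estimate for functions of weight `n` and degree `D` on the fibres -/
def ZEst (A : VX d M) : Prop :=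
  ∀ e a b K : ℕ, a ≤ b → 0 < b → ∃ C : ℕ, ∀ (σ : Fin e → E d) (W : Submodule ℂ (Sp d e))
    (n D : ℕ) (F : Sp d e → ℂ), Adm2 A σ a b W → n ^ b ≤ K * (D + 1) ^ a → InP A σ n D F →
    Ord W F 0 (C * (D + 1)) → F = 0

/-- `B` is a factor of `A` -/
structure Slice (A : VX d M) (B : VX d' M') where
  ι : E d' →ₗ[ℂ] E d
  ρ : E d →ₗ[ℂ] E d'
  ρι : ∀ x, ρ (ι x) = x
  lat : ∀ l ∈ B.Λ, ι l ∈ A.Λ
  H : ∀ x s, A.H (ι x) ⬝ᵥ s = B.H x ⬝ᵥ ρ s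
  th : ∀ c, ∃ a : Fin (M' + 1) → ℂ, (∀ z, A.θ (ι z) c = a ⬝ᵥ B.θ z) ∧
    ∀ s, ∃ b : Fin (M' + 1) → ℂ, ∀ z,
      fderiv ℂ A.θ (ι z) s c = a ⬝ᵥ fderiv ℂ B.θ z (ρ s) + b ⬝ᵥ B.θ z

end Pool.Agent.Lib.MP_caab05_ag.ZF
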