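import Mathlib
import Pool.Agent.Lib.MP_caab05_ag.ZE.All

/-! The multiplicity of an isolated zero of equations of arbitrary weight. -/

namespace Pool.Agent.Lib.MP_caab05_ag.ZF

open MvPolynomial Filter Topology Asymptotics Complex
open Pool.Agent.Lib.MP_caab05_ag.LT (E AbVar Pol)
open ZE

variable {d M e : ℕ} {A : VX d M} {σ : Fin e → E d}

/-- the origin is an isolated zero of the equations `𝒢`, which vanish to order `T + 1` -/
structure IsolN (A : VX d M) (σ : Fin e → E d) (W : Submodule ℂ (Sp d e)) (r T D : ℕ)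
    (𝒢 : Set (Sp d e → ℂ)) : Prop where
  mem : ∀ G ∈ 𝒢, InP A σ r D G
  ord : ∀ G ∈ 𝒢, Ord W G 0 (T + 1)
  iso : ∃ (U : MvPolynomial (Ic e M) ℂ) (k : ℕ), U.IsHomogeneous k ∧ ev (Th A σ) U 0 ≠ 0 ∧
    ∀ z, (∀ G ∈ 𝒢, G z = 0) → z ∈ Per A σ ∨ ev (Th A σ) U z = 0

section One

open Null1Aux

/-- the polynomials which are combinations of the equations up to order `a` -/
noncomputable def IN (hc : ChartP A σ) (W : Submodule ℂ (Sp d e)) (r T : ℕ)
    (𝒢 : Set (Sp d e → ℂ)) (a : ℕ) : Ideal (MvPolynomial (Ic e M) ℂ) where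
  carrier := {P | ∃ (κ : Type) (_ : Fintype κ) (Q : κ → MvPolynomial (Ic e M) ℂ)
    (G : κ → Sp d e → ℂ), (∀ i, G i ∈ 𝒢) ∧
      Jf W T a fun z => Fp A σ P z - ∑ i, Fp A σ (Q i) z * (G i z / A.θ z.1 0 ^ r)}
  add_mem' := by
    rintro P P' ⟨κ, _, Q, G, hG, h⟩ ⟨κ', _, Q', G', hG', h'⟩
    refine ⟨κ ⊕ κ', inferInstance, Sum.elim Q Q', Sum.elim G G', ?_, fun u hu v => ?_⟩
    · rintro (i | i)
      · exact hG i
      · exact hG' i
    · refine ((h u hu v).add (h' u hu v)).congr_left fun τ => ?_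
      simp only [Fp_eq, map_add, Fintype.sum_sum_type, Sum.elim_inl, Sum.elim_inr]
      ring
  zero_mem' := ⟨Empty, inferInstance, fun i => i.elim, fun i => i.elim, fun i => i.elim,
    jf_of_zero (Eventually.of_forall fun z => by simp [Fp_eq])⟩
  smul_mem' := by
    rintro R P ⟨κ, _, Q, G, hG, h⟩
    refine ⟨κ, inferInstance, fun i => R * Q i, G, hG, fun u hu v => ?_⟩
    refine (jf_mul (Fp_diff hc R).continuousAt h u hu v).congr_left fun τ => ?_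
    simp only [Fp_eq, smul_eq_mul, map_mul, mul_sub, Finset.mul_sum, mul_assoc]

variable {W : Submodule ℂ (Sp d e)} {r T a : ℕ} {𝒢 : Set (Sp d e → ℂ)}

lemma mem_IN (hc : ChartP A σ) {P : MvPolynomial (Ic e M) ℂ} (h : Jf W T a (Fp A σ P)) :
    P ∈ IN hc W r T 𝒢 a :=
  ⟨Empty, inferInstance, fun i => i.elim, fun i => i.elim, fun i => i.elim, by simpa using h⟩

/-- the numerators of the equations -/
def NumN (A : VX d M) (σ : Fin e → E d) (r : ℕ) (𝒢 : Set (Sp d e → ℂ)) :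
    Set (MvPolynomial (Ic e M) ℂ) :=
  {P | ∃ G ∈ 𝒢, ∃ (m : ℕ) (Q : MvPolynomial (Ic e M) ℂ), Q.IsHomogeneous m ∧
    P.IsHomogeneous (r + m) ∧ ∀ z, ev (Th A σ) Q z * G z = ev (Th A σ) P z}

lemma num_mem (hc : ChartP A σ) {P : MvPolynomial (Ic e M) ℂ} (h : P ∈ NumN A σ r 𝒢) :
    P ∈ IN hc W r T 𝒢 a := by
  obtain ⟨G, hG, m, Q, hQ, hP, h⟩ := h
  refine ⟨Unit, inferInstance, fun _ => Q, fun _ => G, fun _ => hG,
    jf_of_zero (Eventually.of_forall fun z => ?_)⟩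
  rw [Fintype.sum_unique, Fp_hom hQ, Fp_hom hP, ← h]
  ring

lemma exists_pow (hb : BasP A σ) (hc : ChartP A σ) {D : ℕ} (h : IsolN A σ W r T D 𝒢) :
    ∃ s : ℕ, ∀ a i, lin (none, 0) (aff A σ 0) i ^ s ∈ IN hc W r T 𝒢 a := by
  obtain ⟨S, hS, hS'⟩ := hc.img
  obtain ⟨U, k, hU, hU0, hiso⟩ := h.iso
  have h1 : ∀ i, ∃ s : ℕ, (lin (none, 0) (aff A σ 0) i * U) ^ s ∈
      Ideal.span (S ∪ NumN A σ r 𝒢) := fun i => by
    change _ ∈ (Ideal.span (S ∪ NumN A σ r 𝒢)).radical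
    rw [← vanishingIdeal_zeroLocus_eq_radical (K := ℂ), zeroLocus_span, mem_vanishingIdeal_iff]
    intro x hx
    obtain ⟨z, hz, rfl⟩ := hS' x fun P hP => hx P (Or.inl hP)
    change eval _ _ = 0
    rw [map_mul]
    rcases hiso z (fun G hG => by
      obtain ⟨m, Q, P, hQ, hP, hQz, hQP⟩ := (h.mem G hG).2 z
      have h2 : Fp A σ P z = 0 := hx P (Or.inr ⟨G, hG, m, Q, hQ, hP, hQP⟩)
      rw [Fp_hom hP, ← hQP] at h2
      exact (mul_eq_zero.1 ((mul_eq_zero.1 h2).resolve_left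
        (pow_ne_zero _ (inv_ne_zero hz)))).resolve_left hQz) with h3 | h3
    · rw [aff_per hb h3]
      simp [lin, aff_o (A := A) (σ := σ) (z := 0) A.origin]
    · rw [← Fp_eq U, Fp_hom hU, h3, mul_zero, mul_zero]
  choose s hs using h1
  refine ⟨∑ i, s i, fun a i => ?_⟩
  have h2 : Ideal.span (S ∪ NumN A σ r 𝒢) ≤ IN hc W r T 𝒢 a := by
    refine Ideal.span_le.2 ?_
    rintro P (hP | hP)
    · exact mem_IN hc (jf_of_zero ((theta0_ne A e).mono fun z hz => hS P hP z hz))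
    · exact num_mem hc hP
  have hu0 : Fp A σ U 0 ≠ 0 := by
    rw [Fp_hom hU]; exact mul_ne_zero (pow_ne_zero _ (inv_ne_zero A.origin)) hU0
  have h3 : IsUnit (Ideal.Quotient.mk (IN hc W r T 𝒢 a) U) := by
    have hn : IsNilpotent (Ideal.Quotient.mk (IN hc W r T 𝒢 a) (U - C (Fp A σ U 0))) :=
      ⟨a, by
        rw [← map_pow, Ideal.Quotient.eq_zero_iff_mem]
        refine mem_IN hc fun u hu v => ?_
        exact (jf_pow (T := T) (a := a) (Fp_diff hc U) u hu v).congr_left fun τ => by simp [Fp_eq]⟩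
    have hC : IsUnit (Ideal.Quotient.mk (IN hc W r T 𝒢 a) (C (Fp A σ U 0))) :=
      (hu0.isUnit.map C).map _
    have := hn.isUnit_add_right_of_commute hC (Commute.all _ _)
    rwa [← map_add, sub_add_cancel] at this
  have h4 := Ideal.Quotient.eq_zero_iff_mem.2 (h2 (hs i))
  rw [mul_pow, map_mul, map_pow _ U, (h3.pow _).mul_left_eq_zero,
    Ideal.Quotient.eq_zero_iff_mem] at h4
  exact (IN hc W r T 𝒢 a).mem_of_dvd (pow_dvd_pow _
    (Finset.single_le_sum (fun _ _ => Nat.zero_le _) (Finset.mem_univ i))) h4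

theorem null1 {D : ℕ} (h : IsolN A σ W r T D 𝒢) :
    ∃ s₁ : ℕ, ∀ (a : ℕ) (P : MvPolynomial (Ic e M) ℂ),
      ∃ (P₀ : MvPolynomial (Ic e M) ℂ) (m : ℕ) (Q : Fin m → MvPolynomial (Ic e M) ℂ)
        (G : Fin m → Sp d e → ℂ), P₀.IsHomogeneous s₁ ∧ (∀ i, G i ∈ 𝒢) ∧
        Jf W T a fun z => Fp A σ P z - Fp A σ P₀ z -
          ∑ i, Fp A σ (Q i) z * (G i z / A.θ z.1 0 ^ r) := by
  have hc' := chart' d M e A σ
  obtain ⟨s, hs⟩ := exists_pow (bas' d M e A σ) hc' h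
  refine ⟨Fintype.card (Ic e M) * s, fun a P => ?_⟩
  have h0 : X (none, 0) - 1 ∈ IN hc' W r T 𝒢 a :=
    mem_IN hc' (jf_of_zero ((theta0_ne A e).mono fun z hz => by simp [Fp_eq, aff_o hz]))
  obtain ⟨P₀, hP₀, κ, _, Q, G, hG, hJ⟩ := mem_Gm.1 (Gm_top h0 _ (hs a) P)
  let ε := (Fintype.equivFin κ).symm
  refine ⟨P₀, _, fun i => Q (ε i), fun i => G (ε i), hP₀, fun i => hG _, fun u hu v => ?_⟩
  refine (hJ u hu v).congr_left fun τ => ?_
  beta_reduce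
  rw [← ε.sum_comp]
  simp only [Fp_eq, map_sub]

end One

open NullAux in
theorem null {W : Submodule ℂ (Sp d e)} {r T D : ℕ} {𝒢 : Set (Sp d e → ℂ)}
    (hI : IsolN A σ W r T D 𝒢) : ∃ s₁ : ℕ, ∀ (s : ℕ) (P : MvPolynomial (Ic e M) ℂ),
      ∃ F, InQ A σ (s₁ + r * s) (s₁ + D * s) F ∧
        Jf W T (s * (T + 1)) fun z => Fp A σ P z - F z / A.θ z.1 0 ^ (s₁ + r * s) := by
  have B := bas' d M e A σ
  obtain ⟨s₁, hs⟩ := null1 hI
  refine ⟨s₁, fun s => ?_⟩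
  induction s with
  | zero =>
    intro P
    refine ⟨fun _ => 0, B.qzero _ _, ?_⟩
    simpa using jf_zero (W := W) (T := T) (cont_Fp B P)
  | succ s ih =>
    intro P
    obtain ⟨P₀, m, Q, G, h0, hG, hJ⟩ := hs ((s + 1) * (T + 1)) P
    choose F hF hFJ using fun i => ih (Q i)
    refine ⟨fun z => ev (Th A σ) P₀ z * A.θ z.1 0 ^ (r * (s + 1)) + ∑ i, F i z * G i z,
      B.qadd _ _ _ _ (B.qmono _ _ _ _ (by omega)
        (B.qmul _ _ _ _ _ _ (B.form P₀ s₁ h0).1 (theta_pow B _)))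
        (B.qsum _ _ _ _ _ fun i _ => ?_), ?_⟩
    · have := B.qmul _ _ _ _ _ _ (hF i) (hI.mem _ (hG i)).1
      rwa [add_assoc, add_assoc, ← Nat.mul_succ, ← Nat.mul_succ] at this
    have hc : ContinuousAt (fun z : Sp d e => (A.θ z.1 0 ^ r)⁻¹) 0 :=
      ((cont_theta A e).pow r).continuousAt.inv₀ (pow_ne_zero r A.origin)
    have h2 : ∀ i, Jf W T ((s + 1) * (T + 1)) fun z =>
        (Fp A σ (Q i) z - F i z / A.θ z.1 0 ^ (s₁ + r * s)) * (G i z * (A.θ z.1 0 ^ r)⁻¹) :=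
      fun i => by
        rw [add_mul, one_mul]
        exact jf_mul (hFJ i) (jf_mul (a := T + 1) (b := 0)
          (jf_of_ord (hI.mem _ (hG i)).1.diff (hI.ord _ (hG i))) (jf_zero hc))
    refine jf_congr (jf_add hJ (jf_sum Finset.univ fun i _ => h2 i)) ?_
    filter_upwards [(cont_theta A e).continuousAt.eventually_ne A.origin] with z hz
    rw [Fp_hom h0, add_div, Finset.sum_div, sub_add, ← Finset.sum_sub_distrib, sub_sub]
    congr 2
    · field_simp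
      ring
    · refine Finset.sum_congr rfl fun i _ => ?_
      field_simp
      ring

theorem iso (A : VX d M) (e : ℕ) : ∃ C : ℕ, ∀ (σ : Fin e → E d) (W : Submodule ℂ (Sp d e))
    (r T D : ℕ) (𝒢 : Set (Sp d e → ℂ)), IsolN A σ W r T D 𝒢 →
    (T + 1) ^ Module.finrank ℂ W ≤ C * (r + 1) ^ d * (D + 1) ^ e := by
  obtain ⟨C, hC1, hC⟩ := hil' d M A
  refine ⟨⌈C⌉₊ * (d + e + 1) ^ d * (d + e + 1) ^ e, fun σ W r T D 𝒢 hI => ?_⟩
  obtain ⟨s₁, hs⟩ := null hI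
  have hch := chart' d M e A σ
  obtain ⟨κ, _, P, hcard, hP⟩ := cnt appr (Sp d e) (Ic e M) (aff A σ) hch.dif hch.imm W T (s₁ + 1)
  have hfr : Module.finrank ℂ (Sp d e) = d + e := by simp [Sp, E, Module.finrank_prod]
  rw [hfr] at hcard hP
  choose F hF hPF using fun α : κ => hs ((d + e) * (s₁ + 1) + 1) (P α)
  have hli : LinearIndependent ℂ F := by
    refine Fintype.linearIndependent_iff.2 fun c hc' => ?_
    have h0 := hP c fun u hu v => by
      have h1 := IsBigO.sum (s := Finset.univ) fun α _ => (hPF α u hu v).const_mul_left (c α)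
      refine h1.congr_left fun τ => ?_
      have h2 := congrFun hc' (gam T u v τ)
      simp only [Finset.sum_apply, Pi.smul_apply, smul_eq_mul, Pi.zero_apply] at h2
      simp only [Finset.sum_apply, mul_sub, Finset.sum_sub_distrib, ← mul_div_assoc,
        ← Finset.sum_div, h2, zero_div,
        sub_zero]
      rfl
    exact fun i => congrFun h0 i
  have h1 := hC e σ _ _ κ F hF hli
  rw [hcard] at h1
  have h3 : ∀ D : ℕ, s₁ + D * ((d + e) * (s₁ + 1) + 1) + 1 ≤ (s₁ + 1) * ((d + e + 1) * (D + 1)) :=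
    fun D => by nlinarith [Nat.zero_le (D * s₁), Nat.zero_le ((d + e) * (s₁ + 1))]
  have h4 : (s₁ + 1) ^ (d + e) * (T + 1) ^ Module.finrank ℂ W ≤
      ⌈C⌉₊ * (s₁ + r * ((d + e) * (s₁ + 1) + 1) + 1) ^ d *
        (s₁ + D * ((d + e) * (s₁ + 1) + 1) + 1) ^ e := by
    have h5 : C * (((s₁ + r * ((d + e) * (s₁ + 1) + 1) : ℕ) : ℝ) + 1) ^ d *
        (((s₁ + D * ((d + e) * (s₁ + 1) + 1) : ℕ) : ℝ) + 1) ^ e ≤
        (⌈C⌉₊ : ℝ) * (((s₁ + r * ((d + e) * (s₁ + 1) + 1) : ℕ) : ℝ) + 1) ^ d *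
        (((s₁ + D * ((d + e) * (s₁ + 1) + 1) : ℕ) : ℝ) + 1) ^ e := by
      gcongr
      exact Nat.le_ceil C
    exact_mod_cast h1.trans h5
  have h5 : ⌈C⌉₊ * (s₁ + r * ((d + e) * (s₁ + 1) + 1) + 1) ^ d *
        (s₁ + D * ((d + e) * (s₁ + 1) + 1) + 1) ^ e ≤ (s₁ + 1) ^ (d + e) *
        (⌈C⌉₊ * (d + e + 1) ^ d * (d + e + 1) ^ e * (r + 1) ^ d * (D + 1) ^ e) := by
    calc _ ≤ ⌈C⌉₊ * ((s₁ + 1) * ((d + e + 1) * (r + 1))) ^ d *
          ((s₁ + 1) * ((d + e + 1) * (D + 1))) ^ e := by gcongr <;> exact h3 _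
      _ = _ := by simp only [mul_pow, pow_add]; ring
  exact Nat.le_of_mul_le_mul_left (h4.trans h5) (by positivity)

end Pool.Agent.Lib.MP_caab05_ag.ZF
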