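import Mathlib
import Pool.Agent.Lib.MP_caab05_ag.ZE.All

/-! Translates and equations for functions of arbitrary weight. -/

namespace Pool.Agent.Lib.MP_caab05_ag.ZF

open MvPolynomial Filter Topology Asymptotics Complex
open Pool.Agent.Lib.MP_caab05_ag.LT (E AbVar Pol)
open ZE ZE.TrAux ZE.EqsAux

lemma sc_pow {ι κ : Type} {k : ℕ} {R : MvPolynomial (ι ⊕ κ) ℂ} (hR : Sc k R) (n : ℕ) :
    Sc (k * n) (R ^ n) := by
  intro r x y
  rw [map_pow, map_pow, hR r x y, mul_pow, pow_mul]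

variable {d M e n : ℕ} {A : VX d M} {σ : Fin e → E d}
  {B : Ic e M → Fin (M + 1) → MvPolynomial (Ic e M ⊕ Ic e M) ℂ}

/-- the function of two variables whose derivatives are considered -/
noncomputable def Gn (A : VX d M) (n : ℕ) (F : Sp d e → ℂ) (v w : Sp d e) (b : Fin (M + 1))
    (p : Sp d e × ℂ) : ℂ :=
  F (p.1 + v + p.2 • w) * A.θ (p.1.1 - v.1 - p.2 • w.1) b ^ n

lemma differentiable_Gn {F : Sp d e → ℂ} (hF : Differentiable ℂ F) (v w : Sp d e)
    (b : Fin (M + 1)) : Differentiable ℂ (Gn A n F v w b) := by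
  have h1 : Differentiable ℂ fun p : Sp d e × ℂ => p.1 + v + p.2 • w :=
    (differentiable_fst.add (differentiable_const _)).add (differentiable_snd.smul_const w)
  have h2 : Differentiable ℂ fun p : Sp d e × ℂ => p.1.1 - v.1 - p.2 • w.1 :=
    (differentiable_fst.fst.sub (differentiable_const _)).sub (differentiable_snd.smul_const w.1)
  have h3 : Differentiable ℂ fun x : E d => A.θ x b := differentiable_pi.1 A.holo b
  exact (hF.comp h1).mul ((h3.comp h2).pow n)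

lemma differentiable_Gn' {F : Sp d e → ℂ} (hF : Differentiable ℂ F) (v w : Sp d e)
    (b : Fin (M + 1)) (z : Sp d e) : Differentiable ℂ fun τ : ℂ => Gn A n F v w b (z, τ) :=
  (differentiable_Gn hF v w b).comp ((differentiable_const z).prodMk differentiable_id)

lemma Gn_aut {k : ℕ} {F : Sp d e → ℂ} (hF : InQ A σ n k F) (v w : Sp d e) (b : Fin (M + 1))
    {l : E d} (hl : l ∈ A.Λ) (z : Sp d e) (τ : ℂ) : Gn A n F v w b (z + lift A σ l, τ) =
      cexp (A.H l ⬝ᵥ z.1 + A.β l) ^ (2 * n) * Gn A n F v w b (z, τ) := by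
  have e1 : z + lift A σ l + v + τ • w = (z + v + τ • w) + lift A σ l := by abel
  have e2 : (z + lift A σ l).1 - v.1 - τ • w.1 = (z.1 - v.1 - τ • w.1) + l := by
    have : (z + lift A σ l).1 = z.1 + l := rfl
    rw [this]
    abel
  have e3 : cexp (A.H l ⬝ᵥ (z + v + τ • w).1 + A.β l) *
      cexp (A.H l ⬝ᵥ (z.1 - v.1 - τ • w.1) + A.β l) = cexp (A.H l ⬝ᵥ z.1 + A.β l) ^ 2 := by
    have : (z + v + τ • w).1 = z.1 + v.1 + τ • w.1 := rfl
    rw [this, sq, ← Complex.exp_add, ← Complex.exp_add]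
    congr 1
    simp only [dotProduct_add, dotProduct_sub]
    ring
  simp only [Gn]
  rw [e1, e2, hF.aut l hl, A.law l hl, Pi.smul_apply, smul_eq_mul, pow_mul, ← e3]
  ring

lemma inQ_tr {k : ℕ} {F : Sp d e → ℂ} (hF : InQ A σ n k F) (v w : Sp d e)
    (b : Fin (M + 1)) (j : ℕ) :
    InQ A σ (2 * n) k fun z => iteratedDeriv j (fun τ : ℂ => Gn A n F v w b (z, τ)) 0 := by
  refine ⟨locS.dif _ _ (differentiable_Gn hF.diff v w b) j, fun l hl z => ?_, fun z u => ?_⟩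
  · simp only [Gn_aut hF v w b hl]
    exact iteratedDeriv_const_mul_field _ _
  · refine locS.pol (fun τ ρ => Gn A n F v w b (z + ρ • ((0, u) : Sp d e), τ)) k j
      (fun ρ => differentiable_Gn' hF.diff v w b _) fun τ => ?_
    obtain ⟨p, hp, hE⟩ := hF.poly (z + v + τ • w) u
    refine ⟨p * Polynomial.C (A.θ (z.1 - v.1 - τ • w.1) b ^ n),
      (Polynomial.natDegree_mul_C_le _ _).trans hp, fun ρ => ?_⟩
    have e1 : z + ρ • ((0, u) : Sp d e) + v + τ • w = z + v + τ • w + ρ • ((0, u) : Sp d e) := by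
      abel
    have e2 : (z + ρ • ((0, u) : Sp d e)).1 = z.1 := by simp
    simp only [Gn]
    rw [e1, e2, hE, Polynomial.eval_mul, Polynomial.eval_C]

lemma loc_tr (hd : Differentiable ℂ (Th A σ)) (hs : ∀ i b, Sc 2 (B i b))
    (hB : Ad A σ B) {F : Sp d e → ℂ} (hF : Differentiable ℂ F) (v w z₀ : Sp d e)
    (hL : Loc (Th A σ) n F (z₀ + v)) (b : Fin (M + 1)) (j : ℕ) :
    Loc (Th A σ) (2 * n) (fun z => iteratedDeriv j (fun τ : ℂ => Gn A n F v w b (z, τ)) 0) z₀ := by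
  obtain ⟨m, Q, P, hQ, hP, hne, hE⟩ := hL
  obtain ⟨a, ha⟩ := exists_ne A (z₀.1 - v.1)
  obtain ⟨c, hc⟩ := exists_ne A (z₀ + v).1
  have s1 : Sc (2 * m + 2 * n) (sub (fun i => B i a) Q * B (none, c) a ^ n) :=
    (sc_sub (fun i => hs i a) hQ).mul (sc_pow (hs _ _) n)
  have s2 : Sc (2 * n + (2 * m + 2 * n)) (B (none, c) b ^ n * sub (fun i => B i a) P) := by
    have := (sc_pow (hs (none, c) b) n).mul (sc_sub (fun i => hs i a) hP)
    rwa [show 2 * n + 2 * (n + m) = 2 * n + (2 * m + 2 * n) by ring] at this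
  obtain ⟨d1, l1⟩ := loc_fam locS hd s1 v w z₀
  obtain ⟨-, l2⟩ := loc_fam locS hd s2 v w z₀
  have key : ∀ (z : Sp d e) (τ : ℂ),
      eval (Sum.elim (Th A σ z) (Th A σ (v + τ • w)))
        (sub (fun i => B i a) Q * B (none, c) a ^ n) * Gn A n F v w b (z, τ) =
      eval (Sum.elim (Th A σ z) (Th A σ (v + τ • w)))
        (B (none, c) b ^ n * sub (fun i => B i a) P) := by
    intro z τ
    have e1 : z + v + τ • w = z + (v + τ • w) := add_assoc _ _ _
    have e2 : z.1 - v.1 - τ • w.1 = z.1 - (v + τ • w).1 := sub_sub _ _ _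
    rw [map_mul, map_mul, map_pow, map_pow, eval_sub_th hB hQ, eval_sub_th hB hP, ← hB, ← hB,
      ← hE]
    simp only [Gn]
    rw [e1, e2]
    ring
  refine (locS.loc _ _ (Th A σ) z₀).quo (2 * n) (2 * m + 2 * n) j
    (fun τ z => eval (Sum.elim (Th A σ z) (Th A σ (v + τ • w)))
      (sub (fun i => B i a) Q * B (none, c) a ^ n))
    (fun τ z => Gn A n F v w b (z, τ)) d1 (differentiable_Gn' hF v w b) ?_ (fun i _ => l1 i)
    fun i _ => ?_
  · rw [zero_smul, add_zero, map_mul, map_pow, eval_sub_th hB hQ, ← hB]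
    exact mul_ne_zero (mul_ne_zero (pow_ne_zero _ ha) hne) (pow_ne_zero _ (mul_ne_zero hc ha))
  · simp only [key]
    exact l2 i

theorem tr {k : ℕ} {F : Sp d e → ℂ} (hF : InP A σ n k F) (v w : Sp d e) (b : Fin (M + 1))
    (j : ℕ) : InP A σ (2 * n) k fun z => iteratedDeriv j
      (fun τ : ℂ => F (z + v + τ • w) * A.θ (z.1 - v.1 - τ • w.1) b ^ n) 0 := by
  obtain ⟨B, hs, hB⟩ := (add' d M e A σ).add
  exact ⟨inQ_tr hF.1 v w b j, fun z₀ =>
    loc_tr (bas' d M e A σ).diff hs hB hF.1.diff v w z₀ (hF.2 _) b j⟩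

theorem tr0 {k : ℕ} {F : Sp d e → ℂ} (hF : InP A σ n k F) (v : Sp d e) (b : Fin (M + 1)) :
    InP A σ (2 * n) k fun z => F (z + v) * A.θ (z.1 - v.1) b ^ n := by
  simpa using tr hF v 0 b 0

theorem eqs {D : ℕ} {F : Sp d e → ℂ} (hF : InP A σ n D F) (W : Submodule ℂ (Sp d e))
    (v : Sp d e) (N : ℕ) : ∃ 𝒢 : Set (Sp d e → ℂ),
      (∀ G ∈ 𝒢, InP A σ (2 * n) D G) ∧ (∀ z, (∀ G ∈ 𝒢, G z = 0) ↔ Ord W F (z + v) N) ∧
      ∀ T, Ord W F v (N + T) → ∀ G ∈ 𝒢, Ord W G 0 (T + 1) := by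
  have hFd : Differentiable ℂ F := hF.1.diff
  have hθ : ∀ b, Differentiable ℂ fun x => A.θ x b ^ n := fun b =>
    (differentiable_pi.1 A.holo b).pow n
  have hg : ∀ (z w : Sp d e) b, Differentiable ℂ fun τ : ℂ => A.θ (z.1 - v.1 - τ • w.1) b ^ n :=
    fun z w b => (hθ b).comp (f := fun τ : ℂ => z.1 - v.1 - τ • w.1) (by fun_prop)
  have hdiff : ∀ (z w : Sp d e) b, Differentiable ℂ fun τ : ℂ =>
      F (z + v + τ • w) * A.θ (z.1 - v.1 - τ • w.1) b ^ n :=
    fun z w b => (hFd.comp (f := fun τ : ℂ => z + v + τ • w) (by fun_prop)).mul (hg z w b)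
  refine ⟨{G | ∃ w b j, w ∈ W ∧ j < N ∧ G = fun z => iteratedDeriv j (fun τ : ℂ =>
      F (z + v + τ • w) * A.θ (z.1 - v.1 - τ • w.1) b ^ n) 0}, ?_, ?_, ?_⟩
  · rintro G ⟨w, b, j, -, -, rfl⟩
    exact tr hF v w b j
  · intro z
    constructor
    · intro h w hw
      obtain ⟨b, hb⟩ := exists_ne A (z.1 - v.1)
      have h1 : (fun τ : ℂ => F (z + v + τ • w) * A.θ (z.1 - v.1 - τ • w.1) b ^ n) =O[𝓝 0]
          fun τ : ℂ => τ ^ N := by
        refine (LT.isBigO_pow_iff ((hdiff z w b).analyticAt 0) N).2 fun j hj => ?_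
        exact h _ ⟨w, b, j, hw, hj, rfl⟩
      exact (isBigO_mul (hg z w b).continuous (by simpa using fun h => absurd h hb)).trans h1
    · rintro h G ⟨w, b, j, hw, hj, rfl⟩
      refine (LT.isBigO_pow_iff ((hdiff z w b).analyticAt 0) N).1 ?_ j hj
      exact (mul_isBigO (hg z w b).continuous).trans (h w hw)
  · rintro T h G ⟨w, b, j, hw, hj, rfl⟩ u hu
    simp only [zero_add]
    refine LT.EqsAux.deriv_isBigO (H := fun p : ℂ × ℂ =>
      F (p.1 • u + v + p.2 • w) * A.θ ((p.1 • u).1 - v.1 - p.2 • w.1) b ^ n) ?_ (n := N + T)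
      (by omega) fun a c => ?_
    · exact (hFd.comp (f := fun p : ℂ × ℂ => p.1 • u + v + p.2 • w) (by fun_prop)).mul
        ((hθ b).comp (f := fun p : ℂ × ℂ => (p.1 • u).1 - v.1 - p.2 • w.1) (by fun_prop))
    · have h2 : Continuous fun s : ℂ => A.θ (((s * a) • u).1 - v.1 - (s * c) • w.1) b ^ n :=
        (hθ b).continuous.comp (f := fun s : ℂ => ((s * a) • u).1 - v.1 - (s * c) • w.1)
          (by fun_prop)
      refine (mul_isBigO h2).trans ?_
      have h3 := h (a • u + c • w) (W.add_mem (W.smul_mem a hu) (W.smul_mem c hw))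
      refine h3.congr_left fun s => ?_
      congr 1
      module

end Pool.Agent.Lib.MP_caab05_ag.ZF
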