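import Mathlib
import Pool.Agent.Lib.MP_caab05_ag.ZF.Defs
import Pool.Agent.Lib.MP_caab05_ag.ZF.Tr

/-! The two descents: quotient by a line of the fibre and restriction to a factor. -/

namespace Pool.Agent.Lib.MP_caab05_ag.ZF

open MvPolynomial Filter Topology Asymptotics Complex Module
open Pool.Agent.Lib.MP_caab05_ag.LT (E AbVar Pol)
open ZE

variable {d M e d' M' a b : ℕ}

section Line

open DescAux

variable (j : Fin (e + 1)) (r : Fin e → ℂ)

theorem adm_line (A : VX d M) (σ : Fin (e + 1) → E d) (W : Submodule ℂ (Sp d (e + 1)))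
    (h : Adm2 A σ a b W) : Adm2 A (sg j r σ) a b (W.map (pr j r d)) := by
  refine ⟨fun U hU => ?_, fun U hU hU' => ?_⟩
  · have h0 : W.map (pr j r d) ⊔ SU A (sg j r σ) U = (W ⊔ SU A σ U).map (pr j r d) := by
      rw [Submodule.map_sup, SU, SU, Submodule.map_span, Set.image_image]
      simp only [pr_lift]
    have h1 := LinearMap.finrank_le_finrank_of_injective
      (f := ((pr j r d).submoduleMap (W ⊔ SU A σ U)).prod
        ((LinearMap.proj j : E (e + 1) →ₗ[ℂ] ℂ) ∘ₗ LinearMap.snd ℂ _ _ ∘ₗ (W ⊔ SU A σ U).subtype))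
      fun z w hzw => Subtype.ext (pr_inj j r (congrArg (fun x => x.1.1) hzw :)
        (congrArg Prod.snd hzw :))
    rw [Module.finrank_prod, Module.finrank_self] at h1
    have h2 := h.dim U hU
    rw [h0]
    nlinarith [Nat.mul_le_mul_left b h1]
  · obtain ⟨w, hw, hw'⟩ := h.hor U hU hU'
    exact ⟨_, Submodule.mem_map_of_mem hw, hw'⟩

theorem loc_line (A : VX d M) (σ : Fin (e + 1) → E d) {n : ℕ} {F : Sp d (e + 1) → ℂ}
    {F' : Sp d e → ℂ} (hF : ∀ z, Loc (Th A σ) n F z) (hF' : ∀ z, F z = F' (pr j r d z))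
    (z₀ : Sp d e) : Loc (Th A (sg j r σ)) n F' z₀ := by
  obtain ⟨c, h0⟩ := TrAux.exists_ne A z₀.1
  obtain ⟨R, t, hR, hR'⟩ := sect j r bas' add' A σ c
  obtain ⟨m, Q, P, hQ, hP, h1, h2⟩ := hF (up j r z₀ (t z₀))
  have e2 : ∀ z, Th A (sg j r σ) z (none, c) = A.θ z.1 c := fun z => rfl
  refine ⟨n + 1 + 2 * m, X (none, c) ^ (n + 1) * aeval R Q, X (none, c) * aeval R P,
    (isHomogeneous_X_pow _ _).mul (hQ.aeval R hR), ?_, ?_, fun z => ?_⟩
  · rw [show n + (n + 1 + 2 * m) = 1 + 2 * (n + m) by ring]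
    exact (isHomogeneous_X ℂ _).mul (hP.aeval R hR)
  · rw [ev, map_mul, map_pow, eval_X, e2, eval_aeval', hR' _ h0, LT.eval_smul_of_hom hQ]
    exact mul_ne_zero (pow_ne_zero _ h0) (mul_ne_zero (pow_ne_zero _ h0) h1)
  · rw [ev, ev, map_mul, map_mul, map_pow, eval_X, e2]
    by_cases hz : A.θ z.1 c = 0
    · simp [hz]
    · have h3 := h2 (up j r z (t z))
      rw [hF', pr_up, ev, ev] at h3
      rw [eval_aeval', eval_aeval', hR' _ hz, LT.eval_smul_of_hom hQ, LT.eval_smul_of_hom hP, ← h3]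
      ring

theorem desc (A : VX d M) (σ : Fin (e + 1) → E d) (v : E (e + 1)) (hv : v ≠ 0) :
    ∃ (σ' : Fin e → E d) (π : Sp d (e + 1) →ₗ[ℂ] Sp d e),
      (∀ a b W, Adm2 A σ a b W → Adm2 A σ' a b (W.map π)) ∧
      ∀ n k F, InP A σ n k F → (∀ z (τ : ℂ), F (z + τ • ((0, v) : Sp d (e + 1))) = F z) →
        ∃ F', InP A σ' n k F' ∧ ∀ z, F z = F' (π z) := by
  obtain ⟨j, hj⟩ := Function.ne_iff.1 hv
  replace hj : v j ≠ 0 := hj
  set r : Fin e → ℂ := fun i => v (j.succAbove i) / v j with hr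
  refine ⟨sg j r σ, pr j r d, fun a b => adm_line j r A σ, fun n k F hF hF' => ?_⟩
  have h1 : ∀ z, F z = F (up j r (pr j r d z) 0) := fun z => const j hj hF' (pr_up j r _ 0).symm
  refine ⟨fun z => F (up j r z 0), ⟨⟨hF.1.diff.comp (diff_up j r), fun l hl z => ?_,
    fun z u => ?_⟩, loc_line j r A σ hF.2 h1⟩, h1⟩
  · rw [const j hj hF' (z := up j r (z + lift A (sg j r σ) l) 0) (w := up j r z 0 + lift A σ l)
      (by rw [map_add, pr_up, pr_up, pr_lift]), hF.1.aut l hl]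
    rfl
  · obtain ⟨p, hp, hp'⟩ := hF.1.poly (up j r z 0) (up j r ((0, u) : Sp d e) 0).2
    refine ⟨p, hp, fun τ => ?_⟩
    rw [← hp']
    refine const j hj hF' ?_
    rw [map_add, map_smul, pr_up, pr_up]
    exact congrArg (fun w => z + τ • w) (pr_up j r ((0, u) : Sp d e) 0).symm

end Line

theorem rat_bot (A : VX d M) : ZE.Rat A ⊥ := by
  refine le_antisymm (Submodule.span_le.2 fun x hx => hx.1) fun x hx => ?_
  rw [(Submodule.mem_bot ℂ).1 hx]
  exact zero_mem _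

theorem rat_sup {A : VX d M} {U V : Submodule ℂ (E d)} (hU : ZE.Rat A U) (hV : ZE.Rat A V) :
    ZE.Rat A (U ⊔ V) := by
  refine le_antisymm (Submodule.span_le.2 fun x hx => hx.1) fun x hx => ?_
  obtain ⟨u, hu, v, hv, rfl⟩ := Submodule.mem_sup.1 (show x ∈ U ⊔ V from hx)
  refine add_mem (Submodule.span_mono ?_ (hU.ge hu)) (Submodule.span_mono ?_ (hV.ge hv))
  · exact Set.inter_subset_inter_left _ (le_sup_left : U ≤ U ⊔ V)
  · exact Set.inter_subset_inter_left _ (le_sup_right : V ≤ U ⊔ V)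

namespace Slice

variable {A : VX d M} {B : VX d' M'} (s : Slice A B) (σ : Fin e → E d)

/-- the inclusion of the extensions -/
noncomputable def j (e : ℕ) : Sp d' e →ₗ[ℂ] Sp d e := s.ι.prodMap LinearMap.id

theorem inj : Function.Injective s.ι := Function.LeftInverse.injective s.ρι

theorem j_inj : Function.Injective (s.j e) := fun _ _ h =>
  Prod.ext (s.inj (congrArg Prod.fst h)) (congrArg Prod.snd h :)

theorem j_lift (x : E d') : s.j e (lift B (fun i => s.ρ (σ i)) x) = lift A σ (s.ι x) :=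
  Prod.ext rfl (funext fun i => (s.H x (σ i)).symm)

theorem rat {U : Submodule ℂ (E d')} (hU : ZE.Rat B U) : ZE.Rat A (U.map s.ι) := by
  refine le_antisymm (Submodule.span_le.2 fun x hx => hx.1) ?_
  rintro _ ⟨x, hx, rfl⟩
  have h := Submodule.mem_map_of_mem (f := s.ι.restrictScalars ℝ) (hU.ge hx)
  rw [Submodule.map_span] at h
  refine Submodule.span_mono ?_ h
  rintro _ ⟨y, hy, rfl⟩
  exact ⟨⟨y, hy.1, rfl⟩, s.lat y hy.2⟩

theorem beta {l : E d'} (hl : l ∈ B.Λ) : cexp (A.β (s.ι l)) = cexp (B.β l) := by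
  obtain ⟨a, h, -⟩ := s.th 0
  have h1 := congrFun (A.law _ (s.lat l hl) 0) 0
  have h2 := B.law l hl 0
  have h3 := h 0
  rw [map_zero] at h3
  rw [zero_add, dotProduct_zero, zero_add] at h1 h2
  rw [h, h2, dotProduct_smul, ← h3] at h1
  exact (mul_right_cancel₀ A.origin h1).symm

theorem res {n k : ℕ} {F : Sp d e → ℂ} (hF : InP A σ n k F) :
    InP B (fun i => s.ρ (σ i)) n k fun z => F (s.j e z) := by
  refine ⟨⟨hF.1.diff.comp (s.j e).toContinuousLinearMap.differentiable, fun l hl z => ?_,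
    fun z u => ?_⟩, fun z₀ => ?_⟩
  · rw [map_add, j_lift, hF.1.aut _ (s.lat l hl), Complex.exp_add, Complex.exp_add, s.beta hl, s.H]
    exact congrArg (fun x => (cexp (B.H l ⬝ᵥ x) * _) ^ n * _) (s.ρι z.1)
  · obtain ⟨p, hp, hp'⟩ := hF.1.poly (s.j e z) u
    refine ⟨p, hp, fun τ => ?_⟩
    rw [← hp', map_add, map_smul]
    simp [j]
  choose α h1 β h2 using s.th
  let R : Ic e M → MvPolynomial (Ic e M') ℂ := fun i => ∑ c, C (α i.2 c) * X (i.1, c) +
    ∑ c, C (i.1.elim 0 fun k => β i.2 (σ k) c) * X (none, c)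
  have hR : ∀ i, (R i).IsHomogeneous 1 := fun i =>
    (IsHomogeneous.sum _ _ _ fun c _ => isHomogeneous_C_mul_X _ _).add
      (IsHomogeneous.sum _ _ _ fun c _ => isHomogeneous_C_mul_X _ _)
  have hE : ∀ z, (fun i => eval (Th B (fun i => s.ρ (σ i)) z) (R i)) = Th A σ (s.j e z) := by
    intro z
    funext ⟨i, c⟩
    have e2 : ∀ c, Th B (fun i => s.ρ (σ i)) z (none, c) = B.θ z.1 c := fun c => rfl
    rcases i with _ | i
    · change _ = A.θ (s.ι z.1) c
      simpa [R, e2, dotProduct] using (h1 c z.1).symm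
    · rw [BasAux.th_some]
      change _ = fderiv ℂ A.θ (s.ι z.1) (σ i) c - z.2 i * A.θ (s.ι z.1) c
      rw [h1, h2]
      simp only [R, map_add, map_sum, map_mul, eval_C, eval_X, e2, BasAux.th_some, Option.elim_some,
        dotProduct, mul_sub, Finset.sum_sub_distrib, Finset.mul_sum]
      simp only [mul_left_comm (z.2 i)]
      ring
  have hv : ∀ P z, ev (Th B fun i => s.ρ (σ i)) (aeval R P) z = ev (Th A σ) P (s.j e z) :=
    fun P z => by rw [ev, DescAux.eval_aeval', hE, ev]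
  obtain ⟨m, Q, P, hQ, hP, h3, h4⟩ := hF.2 (s.j e z₀)
  exact ⟨m, aeval R Q, aeval R P, by simpa using hQ.aeval R hR, by simpa using hP.aeval R hR,
    by rwa [hv], fun z => by rw [hv, hv, h4]⟩

theorem split {U : Submodule ℂ (E d)} (hU : LinearMap.range s.ι ⊔ U = ⊤) (z : Sp d e) :
    ∃ u ∈ U, ∃ y, z = s.j e y + lift A σ u := by
  obtain ⟨_, ⟨x, rfl⟩, u, hu, h⟩ := Submodule.mem_sup.1 (hU ▸ Submodule.mem_top :
    z.1 ∈ LinearMap.range s.ι ⊔ U)
  exact ⟨u, hu, (x, z.2 - (lift A σ u).2), Prod.ext h.symm (sub_add_cancel _ _).symm⟩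

theorem adm {W : Submodule ℂ (Sp d e)} (h : Adm2 A σ a b W) (hab : a ≤ b)
    {U : Submodule ℂ (E d)} (hR : ZE.Rat A U) (hU : LinearMap.range s.ι ⊔ U = ⊤) :
    Adm2 B (fun i => s.ρ (σ i)) a b ((W ⊔ SU A σ U).comap (s.j e)) := by
  have ml : ∀ u ∈ U, lift A σ u ∈ W ⊔ SU A σ U := fun u hu =>
    Submodule.mem_sup_right (Submodule.subset_span ⟨u, hu, rfl⟩)
  refine ⟨fun V hV => ?_, fun V hV hV' => ?_⟩
  · have h1 := h.dim _ (rat_sup hR (s.rat hV))
    set Z := W ⊔ SU A σ (U ⊔ V.map s.ι) with hZ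
    set W' := (W ⊔ SU A σ U).comap (s.j e) ⊔ SU B (fun i => s.ρ (σ i)) V with hW'
    have h2 : Z ≤ W ⊔ SU A σ U ⊔ (SU B (fun i => s.ρ (σ i)) V).map (s.j e) := by
      refine sup_le (le_sup_left.trans le_sup_left) (Submodule.span_le.2 ?_)
      rintro _ ⟨x, hx, rfl⟩
      obtain ⟨u, hu, _, ⟨v, hv, rfl⟩, rfl⟩ := Submodule.mem_sup.1 (show x ∈ U ⊔ V.map s.ι from hx)
      rw [(bas' d M e A σ).lift_add, ← s.j_lift]
      exact Submodule.add_mem_sup (ml u hu)
        (Submodule.mem_map_of_mem (Submodule.subset_span ⟨v, hv, rfl⟩))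
    have h3 : Z ⊓ LinearMap.range (s.j e) ≤ W'.map (s.j e) := by
      rintro _ ⟨hz, y, rfl⟩
      obtain ⟨p, hp, _, ⟨q, hq, rfl⟩, e1⟩ := Submodule.mem_sup.1 (h2 hz)
      refine Submodule.mem_map_of_mem (Submodule.mem_sup.2 ⟨y - q, ?_, q, hq, sub_add_cancel _ _⟩)
      rwa [Submodule.mem_comap, map_sub, ← e1, add_sub_cancel_right]
    have h4 := (Submodule.finrank_mono h3).trans (Submodule.finrank_map_le _ _)
    have h5 := Submodule.finrank_sup_add_finrank_inf_eq Z (LinearMap.range (s.j e))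
    have h6 := Submodule.finrank_le (Z ⊔ LinearMap.range (s.j e))
    have f1 : ∀ d, finrank ℂ (Sp d e) = d + e := fun d => by simp [Sp, E, Module.finrank_prod]
    have f2 : ∀ d, finrank ℂ (E d) = d := fun d => by simp [E]
    rw [LinearMap.finrank_range_of_inj s.j_inj, f1] at h5
    rw [f1] at h6
    have h7 := Submodule.finrank_sup_add_finrank_inf_eq U (V.map s.ι)
    have h8 := Submodule.finrank_sup_add_finrank_inf_eq (LinearMap.range s.ι) U
    rw [hU, finrank_top, LinearMap.finrank_range_of_inj s.inj, f2, f2] at h8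
    have h9 : finrank ℂ ↥(U ⊓ V.map s.ι) ≤ finrank ℂ ↥(LinearMap.range s.ι ⊓ U) :=
      Submodule.finrank_mono (le_inf (inf_le_right.trans LinearMap.map_le_range) inf_le_left)
    rw [← (Submodule.equivMapOfInjective _ s.inj V).finrank_eq] at h7
    have k1 : finrank ℂ Z + d' ≤ d + finrank ℂ W' := by omega
    have k2 : finrank ℂ V + d ≤ finrank ℂ ↥(U ⊔ V.map s.ι) + d' := by omega
    obtain ⟨c, rfl⟩ := Nat.exists_eq_add_of_le hab
    nlinarith [Nat.mul_le_mul_left (a + c) k1, Nat.mul_le_mul_left c k2]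
  · by_contra hc
    push Not at hc
    have h1 : U ⊔ V.map s.ι ≠ ⊤ := fun h1 => hV' (eq_top_iff.2 fun x _ => by
      obtain ⟨u, hu, _, ⟨v, hv, rfl⟩, e1⟩ := Submodule.mem_sup.1 (h1 ▸ Submodule.mem_top :
        s.ι x ∈ U ⊔ V.map s.ι)
      have := hc (lift B (fun i => s.ρ (σ i)) (x - v)) (by
        rw [Submodule.mem_comap, j_lift, map_sub, ← e1, add_sub_cancel_right]
        exact ml u hu)
      simpa [ZE.lift] using add_mem this hv)
    obtain ⟨w, hw, hw'⟩ := h.hor _ (rat_sup hR (s.rat hV)) h1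
    obtain ⟨u, hu, y, rfl⟩ := s.split σ hU w
    have := hc y (by simpa using sub_mem (Submodule.mem_sup_left hw) (ml u hu))
    exact hw' (add_mem (Submodule.mem_sup_right (Submodule.mem_map_of_mem this))
      (Submodule.mem_sup_left hu))

end Slice

end Pool.Agent.Lib.MP_caab05_ag.ZF
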