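import Mathlib
import Pool.Agent.Lib.MP_caab05_ag.ZF.Slice
import Pool.Agent.Lib.MP_caab05_ag.ZF.Iso

/-! The multiplicity estimate in two degrees. -/

namespace Pool.Agent.Lib.MP_caab05_ag.ZF

open MvPolynomial Filter Topology Asymptotics Complex Module
open Pool.Agent.Lib.MP_caab05_ag.LT (E AbVar Pol)
open ZE ZE.MainAux
open scoped Pointwise

/-- vanishing along `W` at all points of `U` gives vanishing along `W ⊔ U` -/
lemma ord_sup {Y : Type} [NormedAddCommGroup Y] [NormedSpace ℂ Y] {W U : Submodule ℂ Y}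
    {F : Y → ℂ} (hF : Differentiable ℂ F) {k : ℕ} (hO : ∀ b ∈ U, Ord W F b (k + 1)) {c : Y}
    (hc : c ∈ U) : Ord (W ⊔ U) F c (k + 1) := by
  intro z hz
  obtain ⟨w, hw, b, hb, rfl⟩ := Submodule.mem_sup.1 hz
  have hH : Continuous fun p : ℂ × ℂ => F (c + p.1 • b + p.2 • w) :=
    hF.continuous.comp (by fun_prop)
  obtain ⟨K, hK⟩ := (isCompact_closedBall (0 : ℂ × ℂ) 1).exists_bound_of_continuousOn
    hH.continuousOn
  refine IsBigO.of_bound K ?_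
  filter_upwards [Metric.ball_mem_nhds (0 : ℂ) one_pos] with τ hτ
  rw [mem_ball_zero_iff] at hτ
  have h2 := LT.EqsAux.schwarz (g := fun s : ℂ => F (c + τ • b + s • w))
    (hF.comp (by fun_prop)) (hO _ (U.add_mem hc (U.smul_mem τ hb)) w hw) (K := K)
    (fun s hs => hK (τ, s) (by
      rw [mem_closedBall_zero_iff, Prod.norm_def]
      exact max_le hτ.le hs)) hτ
  have e : c + τ • (w + b) = c + τ • b + τ • w := by
    rw [smul_add]
    abel
  rw [e, norm_pow]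
  exact h2

variable {d M e n a b d' M' : ℕ} {A : VX d M} {σ : Fin e → E d} {W : Submodule ℂ (Sp d e)} {D : ℕ}
  {F : Sp d e → ℂ}

lemma ord_cl (hF : InP A σ n D F) {V : Set (Sp d e)} {N : ℕ}
    (h : ∀ v ∈ V, Ord W F v N) : ∀ z ∈ cl (Th A σ) V, Ord W F z N := by
  obtain ⟨𝒢, h1, h2, -⟩ := eqs hF W 0 N
  intro z hz
  have h3 := (h2 z).1 fun G hG => (locS.loc _ _ (Th A σ) z).zero_cl _ G V ((h1 G hG).2 z)
    (fun v hv => (h2 v).2 (by rw [add_zero]; exact h v hv) G hG) hz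
  rwa [add_zero] at h3

lemma line_case {e : ℕ} {σ : Fin (e + 1) → E d} {W : Submodule ℂ (Sp d (e + 1))}
    {F : Sp d (e + 1) → ℂ} (hW : Adm2 A σ a b W) (hF : InP A σ n D F) (hF0 : F ≠ 0)
    {v : E (e + 1)} (hn : v ≠ 0) {N : ℕ}
    (hO : ∀ τ : ℂ, Ord W F (τ • ((0, v) : Sp d (e + 1))) N) :
    ∃ (σ' : Fin e → E d) (W' : Submodule ℂ (Sp d e)) (F' : Sp d e → ℂ),
      Adm2 A σ' a b W' ∧ InP A σ' n D F' ∧ F' ≠ 0 ∧ Ord W' F' 0 N := by
  obtain ⟨j, -, c, G, hG0, hG1, hG2⟩ := lead _ F ((0, v) : Sp d (e + 1)) D hF0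
    fun z => hF.1.poly z v
  have hG : G = fun z => ∑ i ∈ Finset.range (j + 1), c i * F (z + (0, (i : ℂ) • v)) := by
    funext z
    have := hG2 z 1
    simpa using this
  have hB := bas' d M (e + 1) A σ
  have hGP : InP A σ n D G := by
    rw [hG]
    refine ⟨hB.qsum _ _ _ _ _ fun i _ => hB.qsmul _ _ _ _ (hB.qvt _ _ _ _ hF.1), fun z₀ => ?_⟩
    have hL := locS.loc _ _ (Th A σ) z₀
    exact hL.sum _ _ _ _ fun i _ => hL.smul _ _ _ ((hB.vt _ _ _ _ hF).2 z₀)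
  obtain ⟨σ', π, h1, h2⟩ := desc A σ v hn
  obtain ⟨F', h3, h4⟩ := h2 n D G hGP hG1
  refine ⟨σ', W.map π, F', h1 a b W hW, h3, fun h => hG0 ?_, ?_⟩
  · funext z
    rw [h4, h]; rfl
  · rintro _ ⟨w, hw, rfl⟩
    have h5 : ∀ τ : ℂ, F' (0 + τ • π w) = ∑ i ∈ Finset.range (j + 1),
        c i * F ((i : ℂ) • ((0, v) : Sp d (e + 1)) + τ • w) := fun τ => by
      rw [zero_add, ← map_smul, ← h4, hG]
      refine Finset.sum_congr rfl fun i _ => ?_
      rw [add_comm]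
      simp
    simp only [h5]
    exact (IsBigO.sum (s := Finset.range (j + 1)) fun i _ =>
      (hO i w hw).const_mul_left (c i)).congr_left fun τ => by simp

lemma slice_case {B : VX d' M'} (s : Slice A B) (hF : InP A σ n D F) (hF0 : F ≠ 0)
    {U : Submodule ℂ (E d)} (hU : LinearMap.range s.ι ⊔ U = ⊤) {N : ℕ}
    (hO : ∀ y ∈ SU A σ U, Ord W F y (N + 1)) : ∃ F' : Sp d' e → ℂ,
      InP B (fun i => s.ρ (σ i)) (2 * n) D F' ∧ F' ≠ 0 ∧
      Ord ((W ⊔ SU A σ U).comap (s.j e)) F' 0 (N + 1) := by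
  obtain ⟨z, hz⟩ := Function.ne_iff.1 hF0
  obtain ⟨u, hu, y, rfl⟩ := s.split σ hU z
  obtain ⟨c, hc⟩ := TrAux.exists_ne A ((s.j e y).1 - (lift A σ u).1)
  refine ⟨_, s.res σ (tr0 hF (lift A σ u) c), fun h => mul_ne_zero hz (pow_ne_zero n hc)
    (congrFun h y), fun w hw => ?_⟩
  have h1 := ord_sup hF.1.diff hO (Submodule.subset_span ⟨u, hu, rfl⟩) _ hw
  have h2 : Continuous fun τ : ℂ => A.θ ((τ • s.j e w).1 - (lift A σ u).1) c ^ n :=
    ((differentiable_pi.1 A.holo c).continuous.comp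
      (f := fun τ : ℂ => (τ • s.j e w).1 - (lift A σ u).1) (by fun_prop)).pow n
  refine ((EqsAux.mul_isBigO h2).trans h1).congr_left fun τ => ?_
  simp only [zero_add, map_smul, add_comm (lift A σ u)]

lemma step (hz : ZarP (Th A σ)) (hF : InP A σ n D F) {T : ℕ}
    (h1 : ∀ v : E e, v ≠ 0 → ¬ ∀ τ : ℂ, Ord W F (τ • ((0, v) : Sp d e)) (T + 1))
    (h2 : ∀ U, ZE.Rat A U → U ≠ ⊥ → ¬ ∀ y ∈ SU A σ U, Ord W F y (T + 1))
    (h3 : ∀ 𝒢, ¬ IsolN A σ W (2 * n) T D 𝒢)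
    {V : Set (Sp d e)} {N : ℕ} (hV : Irr (Th A σ) V) (h0 : (0 : Sp d e) ∈ V)
    (hO : ∀ v ∈ V, Ord W F v (N + 1 + T)) :
    ∃ V', Irr (Th A σ) V' ∧ V ⊆ V' ∧ ¬ V' ⊆ cl (Th A σ) V ∧ ∀ v ∈ V', Ord W F v (N + 1) := by
  have hO' := ord_cl hF (N := T + 1) fun v hv => ord_mono (hO v hv) (by omega)
  have h0' := subset_cl (Th A σ) V h0
  rcases stab' d M e A σ V with ⟨n, hn, h⟩ | ⟨U, hU, hU0, h⟩ | h
  · refine (h1 n hn fun τ => hO' _ ?_).elim
    simpa using h 0 h0' τ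
  · refine (h2 U hU hU0 fun b hb => hO' _ ?_).elim
    simpa using h b hb 0 h0'
  choose 𝒢 g1 g2 g3 using fun v => eqs hF W v (N + 1)
  have hS : (0 : Sp d e) ∈ {z | ∀ v ∈ V, Ord W F (z + v) (N + 1)} := fun v hv => by
    rw [zero_add]; exact ord_mono (hO v hv) (by omega)
  rcases hz.dich (Per A σ) _ hS with ⟨H, hHS, hH, hH0, hHΛ⟩ | ⟨U, k, hU', hU0, hz'⟩
  · refine ⟨V + H, hz.add _ _ hV hH, fun v hv => ⟨v, hv, 0, hH0, add_zero v⟩,
      fun h' => hHΛ (h H hH hH0 h'), ?_⟩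
    rintro _ ⟨v, hv, x, hx, rfl⟩
    have := hHS hx v hv
    rwa [add_comm] at this
  · refine (h3 (⋃ v ∈ V, 𝒢 v) ⟨?_, ?_, U, k, hU', hU0, ?_⟩).elim
    · intro G hG
      simp only [Set.mem_iUnion] at hG
      obtain ⟨v, -, hG⟩ := hG
      exact g1 v G hG
    · intro G hG
      simp only [Set.mem_iUnion] at hG
      obtain ⟨v, hv, hG⟩ := hG
      exact g3 v T (hO v hv) G hG
    · intro z h'
      refine hz' z fun v hv => (g2 v z).1 fun G hG => h' G ?_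
      simp only [Set.mem_iUnion]
      exact ⟨v, hv, hG⟩

lemma core (hF : InP A σ n D F) (hF0 : F ≠ 0) {T : ℕ}
    (h1 : ∀ v : E e, v ≠ 0 → ¬ ∀ τ : ℂ, Ord W F (τ • ((0, v) : Sp d e)) (T + 1))
    (h2 : ∀ U, ZE.Rat A U → U ≠ ⊥ → ¬ ∀ y ∈ SU A σ U, Ord W F y (T + 1))
    (h3 : ∀ 𝒢, ¬ IsolN A σ W (2 * n) T D 𝒢) (hO : Ord W F 0 ((d + e) * T + 1)) : False := by
  classical
  have hB := bas' d M e A σ
  have hz := zar _ _ _ hB.diff hB.ne (tr' d M e A σ).transl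
  have hh := hilB bas' hil' A σ
  set m := d + e with hm
  let Pr : ℕ → Set (Sp d e) → Prop := fun r V =>
    Irr (Th A σ) V ∧ (0 : Sp d e) ∈ V ∧ ∀ v ∈ V, Ord W F v ((m - r) * T + 1)
  have key : ∀ r V, ∃ V', (r < m ∧ Pr r V → Pr (r + 1) V' ∧ V ⊆ V' ∧ ¬ V' ⊆ cl (Th A σ) V) ∧
      (¬ r < m → V' = Set.univ) := by
    intro r V
    by_cases hr : r < m ∧ Pr r V
    · obtain ⟨V', a1, a2, a3, a4⟩ := step hz hF h1 h2 h3
        (N := (m - (r + 1)) * T) hr.2.1 hr.2.2.1 (fun v hv => by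
          have := hr.2.2.2 v hv
          rwa [show m - r = m - (r + 1) + 1 by omega, add_mul, one_mul, add_right_comm] at this)
      exact ⟨V', fun _ => ⟨⟨a1, a2 hr.2.2.1, a4⟩, a2, a3⟩, fun h => absurd hr.1 h⟩
    · exact ⟨Set.univ, fun h => absurd h hr, fun _ => rfl⟩
  choose g hg1 hg2 using key
  let V : ℕ → Set (Sp d e) := fun r => Nat.rec {0} g r
  have hV : ∀ r ≤ m, Pr r (V r) := by
    intro r hr
    induction r with
    | zero =>
      refine ⟨⟨Set.singleton_nonempty _, fun P Q _ _ _ _ h => ?_⟩, rfl, ?_⟩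
      · simpa [V] using h
      · rintro _ rfl
        exact hO
    | succ r ih => exact (hg1 r _ ⟨by omega, ih (by omega)⟩).1
  have hlast : V (m + 1) = Set.univ := hg2 m _ (lt_irrefl m)
  refine hz.chain m hh V (fun i hi => ?_) (fun i hi => ?_) (fun i hi => ?_)
  · rcases Nat.lt_or_ge m i with h | h
    · rw [show i = m + 1 by omega, hlast]; exact hz.univ
    · exact (hV i h).1
  · rcases hi.lt_or_eq with h | rfl
    · exact (hg1 i _ ⟨h, hV i hi⟩).2.1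
    · rw [hlast]; exact Set.subset_univ _
  · rcases hi.lt_or_eq with h | rfl
    · exact (hg1 i _ ⟨h, hV i hi⟩).2.2
    · rw [hlast]
      intro h
      refine hF0 (funext fun z => ?_)
      exact (locS.loc _ _ (Th A σ) z).zero_cl n F _ (hF.2 z)
        (fun v hv => ord_zero ((hV _ le_rfl).2.2 v hv)) (h (Set.mem_univ z))

lemma pos_dim (hW : Adm2 A σ a b W) (hb : 0 < b) (h : 0 < d + e) : 0 < finrank ℂ W := by
  have h0 : SU A σ ⊥ = ⊥ := by
    refine Submodule.span_eq_bot.2 ?_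
    rintro _ ⟨x, hx, rfl⟩
    rw [(Submodule.mem_bot ℂ).1 hx]
    simpa using (bas' d M e A σ).lift_smul 0 0
  rcases Nat.eq_zero_or_pos d with rfl | hd
  · have := hW.dim ⊥ (rat_bot A)
    rw [h0, sup_bot_eq, finrank_bot] at this
    nlinarith
  · have : Nonempty (Fin d) := ⟨⟨0, hd⟩⟩
    obtain ⟨w, hw, hw0⟩ := hW.hor ⊥ (rat_bot A) bot_ne_top
    refine Nat.pos_of_ne_zero fun h' => hw0 ?_
    rw [Submodule.finrank_eq_zero.1 h', Submodule.mem_bot] at hw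
    rw [hw]
    exact zero_mem _

lemma dim_le (hW : Adm2 A σ a b W) : b * e + a * d ≤ b * finrank ℂ W := by
  have h0 : SU A σ ⊥ = ⊥ := by
    refine Submodule.span_eq_bot.2 ?_
    rintro _ ⟨x, hx, rfl⟩
    rw [(Submodule.mem_bot ℂ).1 hx]
    simpa using (bas' d M e A σ).lift_smul 0 0
  have := hW.dim ⊥ (rat_bot A)
  rw [h0, sup_bot_eq, finrank_bot] at this
  simpa using this

lemma wt_bd {K : ℕ} (h : n ^ b ≤ K * (D + 1) ^ a) :
    (2 * n + 1) ^ b ≤ 3 ^ b * (K + 1) * (D + 1) ^ a := by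
  rcases Nat.eq_zero_or_pos n with rfl | hn
  · rw [mul_zero, zero_add, one_pow]
    exact Nat.succ_le_of_lt (by positivity)
  · calc _ ≤ (3 * n) ^ b := Nat.pow_le_pow_left (by omega) b
      _ ≤ 3 ^ b * ((K + 1) * (D + 1) ^ a) := by
        rw [mul_pow]
        exact Nat.mul_le_mul_left _ (h.trans (Nat.mul_le_mul_right _ K.le_succ))
      _ = _ := by ring

/-- The multiplicity estimate passes from the factors to the variety. -/
theorem zstep (A : VX d M) {κ : Type} [Finite κ] {d' M' : κ → ℕ} (B : ∀ i, VX (d' i) (M' i))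
    (s : ∀ i, Slice A (B i)) (hB : ∀ i, ZEst (B i))
    (cov : ∀ U, ZE.Rat A U → U ≠ ⊥ → ∃ i, LinearMap.range (s i).ι ⊔ U = ⊤) : ZEst A := by
  intro e a b K hab hb
  have main : ∀ e C₀ : ℕ, (∀ (σ : Fin e → E d) (W : Submodule ℂ (Sp d e)) (n D : ℕ)
      (F : Sp d e → ℂ), Adm2 A σ a b W → n ^ b ≤ K * (D + 1) ^ a → InP A σ n D F → F ≠ 0 →
      ∀ v : E e, v ≠ 0 → ¬ ∀ τ : ℂ, Ord W F (τ • ((0, v) : Sp d e)) (C₀ * (D + 1))) →
      ∃ C : ℕ, ∀ (σ : Fin e → E d) (W : Submodule ℂ (Sp d e)) (n D : ℕ) (F : Sp d e → ℂ),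
        Adm2 A σ a b W → n ^ b ≤ K * (D + 1) ^ a → InP A σ n D F → Ord W F 0 (C * (D + 1)) →
        F = 0 := by
    intro e C₀ h₀
    obtain ⟨Ci, hCi⟩ := iso A e
    choose Cs hCs using fun i => hB i e a b (2 ^ b * K) hab hb
    obtain ⟨Ct, hCt⟩ := (Set.finite_range Cs).bddAbove
    set C₁ := C₀ + Ct + Ci ^ b * (3 ^ b * (K + 1)) ^ d with hC₁
    refine ⟨(d + e) * C₁ + 1, fun σ W n D F hW hn hF hO => ?_⟩
    by_contra hF0
    rcases Nat.eq_zero_or_pos (d + e) with h | hde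
    · obtain ⟨rfl, rfl⟩ := Nat.add_eq_zero_iff.1 h
      refine hF0 (funext fun z => ?_)
      rw [Subsingleton.elim z 0]
      exact ord_zero (k := 0) (ord_mono hO (by simp))
    refine core (T := C₁ * (D + 1)) hF hF0
      (fun v hv h => h₀ σ W n D F hW hn hF hF0 v hv fun τ => ord_mono (h τ) ?_)
      (fun U hU hU0 h => ?_) (fun 𝒢 h => ?_) (ord_mono hO (by nlinarith))
    · exact (Nat.mul_le_mul_right _ (by omega)).trans (Nat.le_succ _)
    · obtain ⟨i, hi⟩ := cov U hU hU0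
      obtain ⟨F', f1, f2, f3⟩ := slice_case (s i) hF hF0 hi h
      refine f2 (hCs i _ _ _ D F' ((s i).adm σ hW hab hU hi) ?_ f1 (ord_mono f3 ?_))
      · rw [mul_pow, mul_assoc]
        exact Nat.mul_le_mul_left _ hn
      · have : Cs i ≤ Ct := hCt ⟨i, rfl⟩
        exact (Nat.mul_le_mul_right _ (by omega)).trans (Nat.le_succ _)
    · refine not_isol (C := Ci ^ b * (3 ^ b * (K + 1)) ^ d) (K := C₁) (D := D) (dim_le hW)
        (Nat.mul_pos hb (pos_dim hW hb hde)) (by omega) ?_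
      calc _ = ((C₁ * (D + 1) + 1) ^ finrank ℂ W) ^ b := by rw [← pow_mul, mul_comm b]
        _ ≤ (Ci * (2 * n + 1) ^ d * (D + 1) ^ e) ^ b := Nat.pow_le_pow_left (hCi σ W _ _ D 𝒢 h) b
        _ = Ci ^ b * ((2 * n + 1) ^ b) ^ d * (D + 1) ^ (b * e) := by ring
        _ ≤ Ci ^ b * (3 ^ b * (K + 1) * (D + 1) ^ a) ^ d * (D + 1) ^ (b * e) := by
          gcongr
          exact wt_bd hn
        _ = _ := by
          rw [mul_pow _ ((D + 1) ^ a), ← pow_mul (D + 1), pow_add (D + 1)]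
          ring
  induction e with
  | zero => exact main 0 0 fun σ W n D F _ _ _ _ v hv => (hv (Subsingleton.elim _ _)).elim
  | succ e ih =>
    obtain ⟨C, hC⟩ := ih
    refine main (e + 1) C fun σ W n D F hW hn hF hF0 v hv h => ?_
    obtain ⟨σ', W', F', h1, h2, h3, h4⟩ := line_case hW hF hF0 hv h
    exact h3 (hC σ' W' n D F' h1 hn h2 h4)

end Pool.Agent.Lib.MP_caab05_ag.ZF
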