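import Mathlib
import Pool.Agent.Lib.MP_caab05_ag.ZF.Seg
import Pool.Agent.Lib.MP_caab05_ag.ZF.Main
import Pool.Agent.Lib.MP_caab05_ag.WZ.Defs

/-! Products of abelian varieties and the multiplicity estimate on them. -/

namespace Pool.Agent.Lib.MP_caab05_ag.ZF

open MvPolynomial Filter Topology Complex Module
open Pool.Agent.Lib.MP_caab05_ag.LT (E AbVar AlgCoeff)
open Pool.Agent.Lib.MP_caab05_ag.LT.PowAux (alg_iff alg_X alg_mul alg_num_prod alg_num_sum)
open ZE

set_option linter.unusedSectionVars false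

namespace Seg

section Quad

variable {ι : Type} [Fintype ι] [DecidableEq ι]

/-- polarisation -/
noncomputable def pol (f : (ι → ℂ) → ℂ) (p q : ι) : ℂ :=
  (f (Pi.single p 1 + Pi.single q 1) - f (Pi.single p 1) - f (Pi.single q 1)) / 2

lemma quad (f : (ι → ℂ) → ℂ) (P : MvPolynomial ι ℂ) (hf : ∀ x, f x = eval x P)
    (h : ∀ (r : ℂ) x, f (r • x) = r ^ 2 * f x) (x : ι → ℂ) :
    f x = ∑ p, ∑ q, pol f p q * (x p * x q) := by
  obtain rfl : f = fun x => eval x P := funext hf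
  have h1 : P ∈ homogeneousSubmodule ι ℂ 2 :=
    LT.isHomogeneous_of_scaling fun c x _ => by simpa [coe_aeval_eq_eval] using h c x
  rw [← homogeneousSubmodule_one_pow, homogeneousSubmodule_one_eq_span_X, pow_two,
    Submodule.span_mul_span] at h1
  clear h hf
  induction h1 using Submodule.span_induction with
  | mem P hP =>
    obtain ⟨_, ⟨i, rfl⟩, _, ⟨j, rfl⟩, rfl⟩ := hP
    have e : ∀ p q, pol (fun x => eval x (X i * X j : MvPolynomial ι ℂ)) p q * (x p * x q) =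
        (if j = q then if i = p then x p * x q / 2 else 0 else 0) +
          if i = q then if j = p then x p * x q / 2 else 0 else 0 := by
      intro p q
      simp only [pol, map_mul, eval_X, Pi.add_apply, Pi.single_apply]
      split_ifs <;> ring
    simp only [e]
    simp only [Finset.sum_add_distrib, Finset.sum_ite_eq, Finset.mem_univ, if_true, map_mul,
      eval_X]
    ring
  | zero => simp [pol]
  | add P Q _ _ hP hQ =>
    simp only [map_add] at hP hQ ⊢
    rw [hP, hQ, ← Finset.sum_add_distrib]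
    refine Finset.sum_congr rfl fun p _ => ?_
    rw [← Finset.sum_add_distrib]
    exact Finset.sum_congr rfl fun q _ => by simp only [pol]; ring
  | smul a P _ hP =>
    simp only [smul_eval] at hP ⊢
    rw [hP, Finset.mul_sum]
    refine Finset.sum_congr rfl fun p _ => ?_
    rw [Finset.mul_sum]
    exact Finset.sum_congr rfl fun q _ => by simp only [pol]; ring

lemma alg_eval {σ : Type} {P : MvPolynomial σ ℂ} (hP : AlgCoeff P) {x : σ → ℂ}
    (hx : ∀ i, IsAlgebraic ℚ (x i)) : IsAlgebraic ℚ (eval x P) := by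
  rw [eval_eq]
  exact alg_num_sum _ fun m => (hP m).mul (alg_num_prod _ fun i => (hx i).pow _)

lemma alg_pol {f : (ι → ℂ) → ℂ} (hf : ∀ x, (∀ i, IsAlgebraic ℚ (x i)) → IsAlgebraic ℚ (f x))
    (p q : ι) : IsAlgebraic ℚ (pol f p q) := by
  have h1 : ∀ p i : ι, IsAlgebraic ℚ ((Pi.single p 1 : ι → ℂ) i) := fun p i => by
    rw [Pi.single_apply]
    split_ifs
    exacts [isAlgebraic_one, isAlgebraic_zero]
  rw [pol, div_eq_mul_inv]
  exact (((hf _ fun i => (h1 p i).add (h1 q i)).sub (hf _ (h1 p))).sub (hf _ (h1 q))).mul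
    (isAlgebraic_natCast 2).inv

/-- a form of bidegree `(2, 2)` in terms of monomials -/
lemma biq (B : MvPolynomial (ι ⊕ ι) ℂ) (hs : ∀ (r s : ℂ) (x y : ι → ℂ),
      eval (Sum.elim (r • x) (s • y)) B = r ^ 2 * s ^ 2 * eval (Sum.elim x y) B)
    (ha : AlgCoeff B) : ∃ c : ι × ι × ι × ι → ℂ, (∀ t, IsAlgebraic ℚ (c t)) ∧ ∀ x y,
      eval (Sum.elim x y) B = ∑ t, c t * (x t.1 * x t.2.1 * (y t.2.2.1 * y t.2.2.2)) := by
  have h1 : ∀ y x, eval (Sum.elim x y) B =
      ∑ p, ∑ q, pol (fun x => eval (Sum.elim x y) B) p q * (x p * x q) := fun y =>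
    quad _ (aeval (Sum.elim X (fun i => C (y i))) B) (fun x => by
      rw [DescAux.eval_aeval']
      exact congrArg (eval · B) (funext fun i => by cases i <;> simp)) fun r x => by
        simpa using hs r 1 x y
  have h2 : ∀ x y, eval (Sum.elim x y) B =
      ∑ p, ∑ q, pol (fun y => eval (Sum.elim x y) B) p q * (y p * y q) := fun x =>
    quad _ (aeval (Sum.elim (fun i => C (x i)) X) B) (fun y => by
      rw [DescAux.eval_aeval']
      exact congrArg (eval · B) (funext fun i => by cases i <;> simp)) fun r y => by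
        simpa using hs 1 r x y
  refine ⟨fun t => pol (fun x => pol (fun y => eval (Sum.elim x y) B) t.2.2.1 t.2.2.2) t.1 t.2.1,
    fun t => alg_pol (fun x hx => alg_pol (fun y hy => alg_eval ha fun i => ?_) _ _) _ _,
    fun x y => ?_⟩
  · cases i
    exacts [hx _, hy _]
  · rw [h1]
    simp only [Fintype.sum_prod_type]
    refine Finset.sum_congr rfl fun p _ => Finset.sum_congr rfl fun q _ => ?_
    rw [pol, h2, h2 (Pi.single p 1), h2 (Pi.single q 1)]
    simp only [← Finset.sum_sub_distrib, Finset.sum_div, Finset.sum_mul]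
    refine Finset.sum_congr rfl fun r _ => Finset.sum_congr rfl fun s _ => ?_
    simp only [pol]
    ring

end Quad

lemma alg_jet {ι : Type} [Fintype ι] (f : ι → ℂ → ℂ) (hf : ∀ i, Differentiable ℂ (f i))
    (ha : ∀ i j, IsAlgebraic ℚ (iteratedDeriv j (f i) 0)) (j : ℕ) :
    IsAlgebraic ℚ (iteratedDeriv j (fun t => ∏ i, f i t) 0) := by
  have := Finset.prod_induction (s := Finset.univ) f
    (fun F => Differentiable ℂ F ∧ ∀ j, IsAlgebraic ℚ (iteratedDeriv j F 0))
    (fun a b ha hb => ⟨ha.1.mul hb.1, fun j => by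
      rw [iteratedDeriv_mul ha.1.contDiff.contDiffAt hb.1.contDiff.contDiffAt]
      exact alg_num_sum _ fun m => ((isAlgebraic_natCast _).mul (ha.2 _)).mul (hb.2 _)⟩)
    ⟨differentiable_const 1, fun j => by
      rw [show (1 : ℂ → ℂ) = fun _ => 1 from rfl, iteratedDeriv_const]
      split_ifs
      exacts [isAlgebraic_one, isAlgebraic_zero]⟩ fun i _ => ⟨hf i, ha i⟩
  rw [← Finset.prod_fn]
  exact this.2 j

variable {K : Type} [Fintype K] [DecidableEq K] {g M : K → ℕ} {d' M' : ℕ}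

lemma glue_dot (δ : (Σ i, Fin (g i)) ≃ Fin d') (u : ∀ i, E (g i)) (z : E d') :
    glue δ u ⬝ᵥ z = ∑ i, u i ⬝ᵥ sl δ z i := by
  rw [dotProduct, ← δ.sum_comp, Fintype.sum_sigma]
  exact Finset.sum_congr rfl fun i _ => Finset.sum_congr rfl fun j _ =>
    congrArg (· * z (δ ⟨i, j⟩)) (congrFun (sl_glue δ u i) j)

lemma sl_ext (δ : (Σ i, Fin (g i)) ≃ Fin d') {z w : E d'} (h : ∀ i, sl δ z i = sl δ w i) :
    z = w := by
  rw [← glue_sl δ z, ← glue_sl δ w, funext h]

/-- `B` is the product of the `A i` in the Segre embedding -/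
structure IsProd (A : ∀ i, VX (g i) (M i)) (δ : (Σ i, Fin (g i)) ≃ Fin d')
    (ε : Fin (M' + 1) ≃ ∀ i, Fin (M i + 1)) (B : VX d' M') : Prop where
  lat : ∀ z, z ∈ B.Λ ↔ ∀ i, sl δ z i ∈ (A i).Λ
  H : ∀ x, B.H x = glue δ fun i => (A i).H (sl δ x i)
  th : ∀ z m, B.θ z m = ∏ i, (A i).θ (sl δ z i) (ε m i)

theorem exists_prod (A : ∀ i, VX (g i) (M i)) (hA : ∀ i, WZ.Arith (A i))
    (δ : (Σ i, Fin (g i)) ≃ Fin d') (ε : Fin (M' + 1) ≃ ∀ i, Fin (M i + 1)) (hε : ε 0 = 0) :
    ∃ B : VX d' M', IsProd A δ ε B ∧ WZ.Arith B := by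
  choose c hc hc' using fun i a b => biq ((A i).B a b) ((A i).scal a b) ((hA i).1 a b)
  have sa : ∀ (x y : E d') i, sl δ (x + y) i = sl δ x i + sl δ y i := fun _ _ _ => rfl
  have sb : ∀ (x y : E d') i, sl δ (x - y) i = sl δ x i - sl δ y i := fun _ _ _ => rfl
  refine ⟨{
    toAbVar := av (fun i => (A i).toAbVar) δ ε hε
    H := {
      toFun := fun x => glue δ fun i => (A i).H (sl δ x i)
      map_add' := fun x y => sl_ext δ fun i => by simp only [sa, sl_glue, map_add]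
      map_smul' := fun r x => sl_ext δ fun i => by
        have e : ∀ x : E d', sl δ (r • x) i = r • sl δ x i := fun _ => rfl
        simp only [e, sl_glue, map_smul, RingHom.id_apply] }
    β := fun l => ∑ i, (A i).β (sl δ l i)
    law := fun l hl z => funext fun m => ?_
    B := fun a b => ∑ t : ∀ i, Fin (M i + 1) × Fin (M i + 1) × Fin (M i + 1) × Fin (M i + 1),
      C (∏ i, c i (ε a i) (ε b i) (t i)) *
        (X (.inl (ε.symm fun i => (t i).1)) * X (.inl (ε.symm fun i => (t i).2.1)) *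
        (X (.inr (ε.symm fun i => (t i).2.2.1)) * X (.inr (ε.symm fun i => (t i).2.2.2))))
    scal := fun a b r s x y => ?_
    add2 := fun u v a b => ?_ }, ⟨fun _ => Iff.rfl, fun _ => rfl, fun _ _ => rfl⟩,
    fun a b => ?_, fun w j a => ?_⟩
  · change Th _ δ ε (z + l) m = cexp (glue δ (fun i => (A i).H (sl δ l i)) ⬝ᵥ z + _) * Th _ δ ε z m
    have h1 : ∀ i, (A i).θ (sl δ z i + sl δ l i) = _ := fun i => (A i).law _ (hl i) _
    simp only [Th, sa, h1, glue_dot, Pi.smul_apply, smul_eq_mul, Finset.prod_mul_distrib,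
      ← Complex.exp_sum, Finset.sum_add_distrib]
  · simp only [map_sum, map_mul, eval_C, eval_X, Sum.elim_inl, Sum.elim_inr, Pi.smul_apply,
      smul_eq_mul, Finset.mul_sum]
    exact Finset.sum_congr rfl fun t _ => by ring
  · change Th _ δ ε (u + v) a * Th _ δ ε (u - v) b = eval (Sum.elim (Th _ δ ε u) (Th _ δ ε v)) _
    simp only [map_sum, map_mul, eval_C, eval_X, Sum.elim_inl, Sum.elim_inr, Th, sa, sb,
      Equiv.apply_symm_apply, ← Finset.prod_mul_distrib, VX.add2, hc']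
    rw [Finset.prod_univ_sum, Fintype.piFinset_univ]
  · choose q hq using fun t : ∀ i, Fin (M i + 1) × Fin (M i + 1) × Fin (M i + 1) × Fin (M i + 1) =>
      alg_iff.1 (alg_mul (P := C (∏ i, c i (ε a i) (ε b i) (t i)))
        (alg_iff.2 ⟨C ⟨_, mem_algebraicClosure_iff.2 (alg_num_prod _ fun i => hc i _ _ _)⟩,
          map_C _ _⟩) (alg_mul (alg_mul (alg_X (Sum.inl (ε.symm fun i => (t i).1)))
            (alg_X (.inl (ε.symm fun i => (t i).2.1))))
          (alg_mul (alg_X (.inr (ε.symm fun i => (t i).2.2.1)))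
            (alg_X (.inr (ε.symm fun i => (t i).2.2.2))))))
    exact alg_iff.2 ⟨∑ t, q t, by rw [map_sum]; exact Finset.sum_congr rfl fun t _ => hq t⟩
  · exact alg_jet (fun i t => (A i).θ (t • fun k => (w (δ ⟨i, k⟩) : ℂ)) (ε a i))
      (fun i => (differentiable_pi.1 (A i).holo _).comp (differentiable_id.smul_const _))
      (fun i => fun j => (hA i).2 (fun k => w (δ ⟨i, k⟩)) j _) j

lemma exists_eps (Y : Type) [Fintype Y] (y : Y) : ∃ (n : ℕ) (ε : Fin (n + 1) ≃ Y), ε 0 = y := by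
  classical
  have : Nonempty Y := ⟨y⟩
  obtain ⟨n, hn⟩ := Nat.exists_eq_succ_of_ne_zero (Fintype.card_ne_zero (α := Y))
  let e := (Fintype.equivFinOfCardEq hn).symm
  exact ⟨n, e.trans (Equiv.swap (e 0) y), by simp⟩

section Slice

variable (i₀ : K) (δ : (Σ i, Fin (g i)) ≃ Fin d') {d'' M'' : ℕ}
  (δ' : (Σ i : {i // i ≠ i₀}, Fin (g i)) ≃ Fin d'')

/-- the inclusion of the product of the other factors -/
noncomputable def inc : E d'' →ₗ[ℂ] E d' where
  toFun z := glue δ fun i => if h : i = i₀ then 0 else sl δ' z ⟨i, h⟩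
  map_add' x y := sl_ext δ fun i => by
    rw [show ∀ x y : E d', sl δ (x + y) i = sl δ x i + sl δ y i from fun _ _ => rfl]
    simp only [sl_glue]
    split_ifs
    exacts [(add_zero _).symm, rfl]
  map_smul' r x := sl_ext δ fun i => by
    rw [show ∀ (r : ℂ) (x : E d'), sl δ (r • x) i = r • sl δ x i from fun _ _ => rfl]
    simp only [sl_glue]
    split_ifs
    exacts [(smul_zero _).symm, rfl]

/-- the projection to the product of the other factors -/
noncomputable def ret : E d' →ₗ[ℂ] E d'' where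
  toFun z := glue δ' fun i => sl δ z i
  map_add' _ _ := rfl
  map_smul' _ _ := rfl

lemma inc_same (z : E d'') : sl δ (inc i₀ δ δ' z) i₀ = 0 :=
  (sl_glue δ (fun i => if h : i = i₀ then 0 else sl δ' z ⟨i, h⟩) i₀).trans (dif_pos rfl)

lemma inc_ne (z : E d'') (i : {i // i ≠ i₀}) : sl δ (inc i₀ δ δ' z) i = sl δ' z i :=
  (sl_glue δ (fun i => if h : i = i₀ then 0 else sl δ' z ⟨i, h⟩) i).trans (dif_neg i.2)

lemma sl_ret (z : E d') (i : {i // i ≠ i₀}) : sl δ' (ret i₀ δ δ' z) i = sl δ z i :=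
  sl_glue δ' (fun i => sl δ z i) i

lemma ret_inc (z : E d'') : ret i₀ δ δ' (inc i₀ δ δ' z) = z :=
  sl_ext δ' fun i => by rw [sl_ret, inc_ne]

variable {δ δ'} {A : ∀ i, VX (g i) (M i)} {ε : Fin (M' + 1) ≃ ∀ i, Fin (M i + 1)} {B : VX d' M'}
  {ε' : Fin (M'' + 1) ≃ ∀ i : {i // i ≠ i₀}, Fin (M i + 1)} {B' : VX d'' M''}

/-- the slice which omits one factor -/
noncomputable def slice (h : IsProd A δ ε B) (h' : IsProd (fun i : {i // i ≠ i₀} => A i) δ' ε' B') :
    Slice B B' where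
  ι := inc i₀ δ δ'
  ρ := ret i₀ δ δ'
  ρι := ret_inc i₀ δ δ'
  lat l hl := (h.lat _).2 fun i => by
    by_cases hi : i = i₀
    · rw [hi, inc_same]
      exact zero_mem _
    · rw [inc_ne i₀ δ δ' l ⟨i, hi⟩]
      exact (h'.lat l).1 hl ⟨i, hi⟩
  H x s := by
    rw [h.H, h'.H, glue_dot, glue_dot, Fintype.sum_eq_add_sum_subtype_ne _ i₀, inc_same, map_zero,
      zero_dotProduct, zero_add]
    exact Finset.sum_congr rfl fun i _ => by rw [inc_ne, sl_ret]
  th c := by
    set c' := ε'.symm fun i => ε c i with hc'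
    set f : E (g i₀) → ℂ := fun u => (A i₀).θ u (ε c i₀) with hf
    have df : Differentiable ℂ f := differentiable_pi.1 (A i₀).holo _
    have e : (fun z => B.θ z c) = fun z => f (slL δ i₀ z) *
        B'.θ ((ret i₀ δ δ').toContinuousLinearMap z) c' := funext fun z => by
      rw [h.th, h'.th, Fintype.prod_eq_mul_prod_subtype_ne _ i₀, hc', Equiv.apply_symm_apply]
      exact congrArg (_ * ·) (Finset.prod_congr rfl fun i _ => by
        rw [LinearMap.coe_toContinuousLinearMap', sl_ret])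
    have e0 : ∀ z, slL δ i₀ (inc i₀ δ δ' z) = 0 := inc_same i₀ δ δ'
    have e1 : ∀ z, (ret i₀ δ δ').toContinuousLinearMap (inc i₀ δ δ' z) = z := ret_inc i₀ δ δ'
    refine ⟨Pi.single c' (f 0), fun z => ?_, fun s => ⟨Pi.single c' (fderiv ℂ f 0 (sl δ s i₀)),
      fun z => ?_⟩⟩
    · rw [single_dotProduct, congrFun e, e0, e1]
    · have h1 := ((df _).hasFDerivAt.comp (inc i₀ δ δ' z) (slL δ i₀).hasFDerivAt).mul
        ((hasFDerivAt_pi'.1 (B'.holo _).hasFDerivAt c').comp (inc i₀ δ δ' z)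
          (ret i₀ δ δ').toContinuousLinearMap.hasFDerivAt)
      have h2 := hasFDerivAt_pi'.1 (B.holo (inc i₀ δ δ' z)).hasFDerivAt c
      rw [e] at h2
      have h3 := congrArg (fun L : E d' →L[ℂ] ℂ => L s) (h2.unique h1)
      simpa [e0, e1, ret_inc, slL_apply, inc_same, mul_comm] using h3

end Slice

theorem cover {A : ∀ i, VX (g i) (M i)} (hA : ∀ i, (A i).Simple) {δ : (Σ i, Fin (g i)) ≃ Fin d'}
    {ε : Fin (M' + 1) ≃ ∀ i, Fin (M i + 1)} {B : VX d' M'} (h : IsProd A δ ε B)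
    {U : Submodule ℂ (E d')} (hU : ZE.Rat B U) (hU0 : U ≠ ⊥) :
    ∃ i, ∀ z, ∃ u ∈ U, sl δ u i = sl δ z i := by
  obtain ⟨u, hu, hu0⟩ := (Submodule.ne_bot_iff _).1 hU0
  obtain ⟨i, hi⟩ := not_forall.1 fun h => hu0 (eq_zero_of_sl δ h)
  rcases hA i (U.map (slL δ i).toLinearMap) (le_antisymm (Submodule.span_le.2 fun x hx => hx.1)
    (by
      rintro _ ⟨x, hx, rfl⟩
      have h1 := Submodule.mem_map_of_mem (f := (slL δ i).toLinearMap.restrictScalars ℝ) (hU.ge hx)
      rw [Submodule.map_span] at h1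
      refine Submodule.span_mono ?_ h1
      rintro _ ⟨y, hy, rfl⟩
      exact ⟨⟨y, hy.1, rfl⟩, (h.lat y).1 hy.2 i⟩)) with h1 | h1
  · exact absurd ((Submodule.mem_bot ℂ).1 (h1 ▸ Submodule.mem_map_of_mem hu)) hi
  · exact ⟨i, fun z => (h1 ▸ Submodule.mem_top : sl δ z i ∈ U.map (slL δ i).toLinearMap)⟩

theorem zest (n : ℕ) : ∀ (K : Type) [Fintype K] [DecidableEq K] (g M : K → ℕ)
    (A : ∀ i, VX (g i) (M i)), Fintype.card K = n → (∀ i, (A i).Simple) → (∀ i, WZ.Arith (A i)) →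
    ∀ (d' M' : ℕ) (δ : (Σ i, Fin (g i)) ≃ Fin d') (ε : Fin (M' + 1) ≃ ∀ i, Fin (M i + 1))
      (B : VX d' M'), IsProd A δ ε B → ZEst B := by
  induction n using Nat.strong_induction_on with
  | _ n ih =>
    intro K _ _ g M A hn hs ha d' M' δ ε B h
    choose M'' ε' hε' using fun i₀ : K => exists_eps (∀ i : {i // i ≠ i₀}, Fin (M i + 1)) 0
    choose B' h' _ using fun i₀ : K => exists_prod (fun i : {i // i ≠ i₀} => A i)
      (fun i => ha i) (Fintype.equivFin _) (ε' i₀) (hε' i₀)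
    refine zstep B B' (fun i₀ => slice i₀ h (h' i₀)) (fun i₀ => ih _ ?_ {i // i ≠ i₀} _ _
      (fun i => A i) rfl (fun i => hs i) (fun i => ha i) _ _ _ _ _ (h' i₀)) fun U hU hU0 => ?_
    · exact hn ▸ Fintype.card_subtype_lt (x := i₀) (by simp)
    · obtain ⟨i₀, hi⟩ := cover hs h hU hU0
      refine ⟨i₀, eq_top_iff.2 fun z _ => ?_⟩
      obtain ⟨u, hu, e⟩ := hi z
      refine Submodule.mem_sup.2 ⟨z - u, ⟨ret i₀ δ (Fintype.equivFin _) (z - u),
        sl_ext δ fun i => ?_⟩, u, hu, sub_add_cancel _ _⟩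
      by_cases hi : i = i₀
      · rw [hi]
        exact (inc_same i₀ δ _ _).trans (sub_eq_zero.2 e.symm).symm
      · exact (inc_ne i₀ δ _ _ ⟨i, hi⟩).trans (sl_ret i₀ δ _ _ ⟨i, hi⟩)

end Seg

/-- A product of simple abelian varieties, with the multiplicity estimate. -/
theorem prodS (K : Type) [Fintype K] (g M : K → ℕ) (A : ∀ i, VX (g i) (M i))
    (hs : ∀ i, (A i).Simple) (ha : ∀ i, WZ.Arith (A i)) {d : ℕ} (δ : (Σ i, Fin (g i)) ≃ Fin d) :
    ∃ (M' : ℕ) (B : VX d M'), WZ.Arith B ∧ ZEst B ∧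
      (∀ z, z ∈ B.Λ ↔ ∀ i, (fun j => z (δ ⟨i, j⟩)) ∈ (A i).Λ) ∧
      ∀ x i j, B.H x (δ ⟨i, j⟩) = (A i).H (fun j => x (δ ⟨i, j⟩)) j := by
  classical
  obtain ⟨M', ε, hε⟩ := Seg.exists_eps (∀ i, Fin (M i + 1)) 0
  obtain ⟨B, h, hB⟩ := Seg.exists_prod A ha δ ε hε
  refine ⟨M', B, hB, Seg.zest _ K g M A rfl hs ha _ _ δ ε B h, h.lat, fun x i j => ?_⟩
  rw [h.H]
  exact congrFun (Seg.sl_glue δ _ i) j

variable {d M e : ℕ}

/-- the horizontal condition follows from the slope condition when the slope is positive -/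
theorem adm_of_dim (A : VX d M) (σ : Fin e → E d) {a b : ℕ} (ha : 0 < a)
    (W : Submodule ℂ (Sp d e)) (h : ∀ U, ZE.Rat A U → b * e + a * d + b * finrank ℂ U ≤
      b * finrank ℂ ↥(W ⊔ SU A σ U) + a * finrank ℂ U) : Adm2 A σ a b W := by
  refine ⟨h, fun U hU hU' => ?_⟩
  by_contra hc
  push Not at hc
  have h1 : W ⊔ SU A σ U ≤ U.prod ⊤ := sup_le (fun w hw => ⟨hc w hw, trivial⟩)
    (Submodule.span_le.2 (by rintro _ ⟨x, hx, rfl⟩; exact ⟨hx, trivial⟩))
  have h2 := LinearMap.finrank_le_finrank_of_injective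
    (f := ((LinearMap.fst ℂ _ _ ∘ₗ (W ⊔ SU A σ U).subtype).codRestrict U fun z => (h1 z.2).1).prod
      (LinearMap.snd ℂ _ _ ∘ₗ (W ⊔ SU A σ U).subtype)) fun z w hzw =>
    Subtype.ext (Prod.ext (congrArg (fun x => x.1.1) hzw :) (congrArg Prod.snd hzw :))
  rw [Module.finrank_prod, show finrank ℂ (E e) = e by simp [E]] at h2
  have h4 := Submodule.finrank_lt hU'
  have h5 := h U hU
  rw [show finrank ℂ (E d) = d by simp [E]] at h4
  nlinarith [Nat.mul_le_mul_left b h2, Nat.mul_le_mul_left a h4]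

/-- products of functions of the class `InP` -/
theorem inP_mul {A : VX d M} {σ : Fin e → E d} {n k m l : ℕ} {F G : Sp d e → ℂ}
    (hF : InP A σ n k F) (hG : InP A σ m l G) : InP A σ (n + m) (k + l) fun z => F z * G z :=
  ⟨(bas' d M e A σ).qmul _ _ _ _ _ _ hF.1 hG.1,
    fun z => (locS.loc _ _ _ z).mul _ _ _ _ (hF.2 z) (hG.2 z)⟩

/-- linear combinations of functions of the class `InP` -/
theorem inP_sum {A : VX d M} {σ : Fin e → E d} {n k : ℕ} {κ : Type} (s : Finset κ) (a : κ → ℂ)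
    {F : κ → Sp d e → ℂ} (hF : ∀ i ∈ s, InP A σ n k (F i)) :
    InP A σ n k fun z => ∑ i ∈ s, a i * F i z :=
  ⟨(bas' d M e A σ).qsum _ _ _ s _ fun i hi => (bas' d M e A σ).qsmul _ _ _ _ (hF i hi).1,
    fun z => (locS.loc _ _ _ z).sum _ _ s _ fun i hi =>
      (locS.loc _ _ _ z).smul _ _ _ ((hF i hi).2 z)⟩

theorem inP_mono {A : VX d M} {σ : Fin e → E d} {n k l : ℕ} {F : Sp d e → ℂ} (h : k ≤ l)
    (hF : InP A σ n k F) : InP A σ n l F :=
  ⟨(bas' d M e A σ).qmono _ _ _ _ h hF.1, hF.2⟩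

/-- monomials in the theta functions -/
theorem inP_mon (A : VX d M) (σ : Fin e → E d) (n : ℕ) (c : Fin n → Fin (M + 1)) :
    InP A σ n 0 fun z => ∏ i, A.θ z.1 (c i) := by
  induction n with
  | zero =>
    have h := (bas' d M e A σ).form 1 0 (isHomogeneous_one _ _)
    rwa [show ev (Th A σ) 1 = fun z => ∏ i, A.θ z.1 (c i) from funext fun z => by simp [ev]] at h
  | succ n ih =>
    simpa [Fin.prod_univ_castSucc] using
      inP_mul (ih fun i => c i.castSucc) ((bas' d M e A σ).theta (c (Fin.last n)))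

/-- the Landau levels on the universal extension -/
theorem inP_lan (A : VX d M) (c : Fin (M + 1)) (j : ℕ) (s : E d) :
    InP A (fun j => Pi.single j 1) 1 j fun z =>
      iteratedDeriv j (fun τ : ℂ => A.θ (z.1 + τ • s) c * cexp (-(z.2 ⬝ᵥ τ • s))) 0 := by
  have h := lan' d M d A (fun j => Pi.single j 1) c j s
  have e : lan A (fun j => Pi.single j 1) c j s = fun z => iteratedDeriv j
      (fun τ : ℂ => A.θ (z.1 + τ • s) c * cexp (-(z.2 ⬝ᵥ τ • s))) 0 := by
    funext z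
    simp only [lan, Psi, Ze2Aux.dir_eq]
  rwa [e] at h

/-- a monomial times a Landau level -/
theorem col_mem (A : VX d M) {n D j : ℕ} (c : Fin n → Fin (M + 1)) (c₀ : Fin (M + 1)) (s : E d)
    (hj : j ≤ D) : InP A (fun j => Pi.single j 1) (n + 1) D fun z => (∏ i, A.θ z.1 (c i)) *
      iteratedDeriv j (fun τ : ℂ => A.θ (z.1 + τ • s) c₀ * cexp (-(z.2 ⬝ᵥ τ • s))) 0 :=
  inP_mono (by omega) (inP_mul (inP_mon A _ n c) (inP_lan A c₀ j s))

end Pool.Agent.Lib.MP_caab05_ag.ZF
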